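import Mathlib
import Pool.Agent.N28.DL.CritRig
import Pool.Agent.R389.Quat

/-!
# Quaternion subgroups of critical subgroups of order `4 |Z|`
-/

set_option autoImplicit false
set_option linter.unusedSectionVars false

namespace Pool.Agent.N28.DL

open Pool.Agent.H302R2 Pool.Agent.H302R3 Pool.Agent.H541R3.ART Pool.Agent.W446.AS Pool.Agent.R389

section lift

variable {X : Type} [Group X]

/-- powers with exponents modulo four -/
def z4 (u : X) (i : ZMod (2 * 2)) : X := u ^ (ZMod.val (n := 4) i)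

lemma z4_add {u : X} (hu : u ^ 4 = 1) (i j : ZMod (2 * 2)) : z4 u (i + j) = z4 u i * z4 u j := by
  rw [z4, z4, z4, ← pow_add]
  have h1 : ZMod.val (n := 4) (i + j) = (ZMod.val (n := 4) i + ZMod.val (n := 4) j) % 4 :=
    ZMod.val_add (n := 4) i j
  rw [h1]
  conv_rhs => rw [← Nat.div_add_mod (ZMod.val (n := 4) i + ZMod.val (n := 4) j) 4, pow_add,
    pow_mul, hu, one_pow, one_mul]

lemma z4_zero (u : X) : z4 u 0 = 1 := by
  have : ZMod.val (n := 4) (0 : ZMod (2 * 2)) = 0 := rfl
  rw [z4, this, pow_zero]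

lemma z4_two (u : X) : z4 u 2 = u ^ 2 := by
  have : ZMod.val (n := 4) (2 : ZMod (2 * 2)) = 2 := rfl
  rw [z4, this]

lemma z4_one (u : X) : z4 u 1 = u := by
  have : ZMod.val (n := 4) (1 : ZMod (2 * 2)) = 1 := rfl
  rw [z4, this, pow_one]

lemma z4_neg {u : X} (hu : u ^ 4 = 1) (i : ZMod (2 * 2)) : z4 u (-i) = (z4 u i)⁻¹ := by
  apply eq_inv_of_mul_eq_one_left
  rw [← z4_add hu, neg_add_cancel, z4_zero]

lemma z4_conj {u v : X} (hu : u ^ 4 = 1) (h : u * v = v * u⁻¹) (i : ZMod (2 * 2)) :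
    z4 u i * v = v * z4 u (-i) := by
  rw [z4_neg hu, z4]
  induction ZMod.val (n := 4) i with
  | zero => simp
  | succ k ih =>
    rw [pow_succ', mul_assoc, ih, ← mul_assoc, h, mul_assoc, ← mul_inv_rev, ← pow_succ, pow_succ']

/-- quaternion subgroups -/
def liftQ {u v : X} (hu : u ^ 4 = 1) (hv : v ^ 2 = u ^ 2) (h : u * v = v * u⁻¹) :
    QuaternionGroup 2 →* X where
  toFun
    | QuaternionGroup.a i => z4 u i
    | QuaternionGroup.xa i => v * z4 u i
  map_one' := z4_zero u
  map_mul' := by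
    rintro (i | i) (j | j)
    · exact z4_add hu i j
    · change v * z4 u (j - i) = z4 u i * (v * z4 u j)
      rw [← mul_assoc, z4_conj hu h, mul_assoc, ← z4_add hu]
      congr 2
      ring
    · change v * z4 u (i + j) = v * z4 u i * z4 u j
      rw [z4_add hu, mul_assoc]
    · change z4 u (((2 : ℕ) : ZMod (2 * 2)) + j - i) = v * z4 u i * (v * z4 u j)
      have e1 : v * z4 u i * (v * z4 u j) = v ^ 2 * (z4 u (-i) * z4 u j) := by
        have := z4_conj hu h i
        calc v * z4 u i * (v * z4 u j) = v * (z4 u i * v) * z4 u j := by group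
          _ = v * (v * z4 u (-i)) * z4 u j := by rw [this]
          _ = _ := by rw [pow_two]; group
      rw [e1, hv, ← z4_two, ← z4_add hu, ← z4_add hu]
      congr 1
      push_cast
      ring

lemma liftQ_inj {u v : X} (hu : u ^ 4 = 1) (hv : v ^ 2 = u ^ 2) (h : u * v = v * u⁻¹)
    (h2 : u ^ 2 ≠ 1) : Function.Injective (liftQ hu hv h) := by
  rw [injective_iff_map_eq_one]
  have hk : ∀ i : ZMod (2 * 2), z4 u i = 1 → i = 0 := by
    intro i hi
    have h4 : ∀ k : ℕ, k < 4 → u ^ k = 1 → k = 0 := by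
      intro k hk h3
      interval_cases k
      · rfl
      · rw [pow_one] at h3
        exact absurd (by rw [h3, one_pow]) h2
      · exact absurd h3 h2
      · exfalso
        apply h2
        have h5 : u = 1 := by
          calc u = u ^ 4 * (u ^ 3)⁻¹ := by group
            _ = 1 := by rw [hu, h3, inv_one, one_mul]
        rw [h5, one_pow]
    have h5 := h4 _ (ZMod.val_lt (n := 4) i) hi
    exact (ZMod.val_eq_zero (n := 4) i).mp h5
  rintro (i | i) hi
  · have h1 := hk i hi
    rw [h1, QuaternionGroup.one_def]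
  · exfalso
    apply h2
    have h1 : v * z4 u i = 1 := hi
    have h3 : v = (z4 u i)⁻¹ := eq_inv_of_mul_eq_one_left h1
    have h4 : u * v = v * u := by
      rw [h3, z4]
      exact ((Commute.refl u).pow_right _).inv_right.eq
    rw [h4] at h
    have h5 : u = u⁻¹ := mul_left_cancel h
    rw [pow_two]
    nth_rewrite 2 [h5]
    exact mul_inv_cancel u

end lift

section crit

variable {X : Type} [Group X] [Finite X] {E : Subgroup X}

/-- elements which commute with their conjugates -/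
lemma mem_center_of_conj (hab : ∀ A : Subgroup X, A.Normal → (∀ a ∈ A, ∀ b ∈ A, a * b = b * a) →
    A ≤ Subgroup.center X) {t : X} (ht : ∀ g : X, t * (g * t * g⁻¹) = g * t * g⁻¹ * t) :
    t ∈ Subgroup.center X := by
  apply hab (Subgroup.normalClosure {t}) inferInstance ?_
    (Subgroup.subset_normalClosure rfl)
  have h1 : ∀ a ∈ Group.conjugatesOfSet {t}, ∀ b ∈ Group.conjugatesOfSet {t}, a * b = b * a := by
    intro a ha b hb
    rw [Group.mem_conjugatesOfSet_iff] at ha hb
    obtain ⟨s, hs, hsa⟩ := ha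
    obtain ⟨s', hs', hsb⟩ := hb
    rw [Set.mem_singleton_iff] at hs hs'
    rw [hs] at hsa
    rw [hs'] at hsb
    obtain ⟨g, hg⟩ := isConj_iff.mp hsa
    obtain ⟨k, hk⟩ := isConj_iff.mp hsb
    rw [← hg, ← hk]
    have h2 := ht (g⁻¹ * k)
    have e1 : t * (g⁻¹ * k * t * (g⁻¹ * k)⁻¹) = g⁻¹ * (g * t * g⁻¹ * (k * t * k⁻¹)) * g := by
      group
    have e2 : g⁻¹ * k * t * (g⁻¹ * k)⁻¹ * t = g⁻¹ * (k * t * k⁻¹ * (g * t * g⁻¹)) * g := by
      group
    rw [e1, e2] at h2
    exact mul_left_cancel (mul_right_cancel h2)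
  intro a ha b hb
  have hcl : ∀ x ∈ Subgroup.normalClosure {t}, ∀ b ∈ Group.conjugatesOfSet {t}, x * b = b * x := by
    intro x hx b hb
    have h3 : Subgroup.normalClosure {t} ≤ Subgroup.centralizer {b} := by
      rw [Subgroup.normalClosure, Subgroup.closure_le]
      intro y hy
      rw [SetLike.mem_coe, Subgroup.mem_centralizer_singleton_iff]
      exact h1 y hy b hb
    have h4 := h3 hx
    rw [Subgroup.mem_centralizer_singleton_iff] at h4
    exact h4
  have h5 : Subgroup.normalClosure {t} ≤ Subgroup.centralizer {a} := by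
    rw [Subgroup.normalClosure, Subgroup.closure_le]
    intro y hy
    rw [SetLike.mem_coe, Subgroup.mem_centralizer_singleton_iff]
    exact (hcl a ha y hy).symm
  have h6 := h5 hb
  rw [Subgroup.mem_centralizer_singleton_iff] at h6
  exact h6.symm

/-- the cosets of the centre -/
lemma crit_four (hE : Crit X E 2 1) {t s : X} (ht : t ∈ E) (hs : s ∈ E)
    (hts : t * s ≠ s * t) {y : X} (hy : y ∈ E) :
    ∃ c ∈ Subgroup.center X, y = c ∨ y = t * c ∨ y = s * c ∨ y = t * s * c := by
  classical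
  let Z := Subgroup.center X
  let Z' : Subgroup E := Z.subgroupOf E
  have hcard : Nat.card (E ⧸ Z') = 4 := by
    have h1 : Nat.card Z' * Z'.index = Nat.card E := Z'.card_mul_index
    have h2 : Nat.card Z' = Nat.card Z := Nat.card_congr (Subgroup.subgroupOfEquivOfLe hE.le).toEquiv
    have h3 := hE.card
    rw [h2, h3] at h1
    have h4 : 0 < Nat.card Z := Nat.card_pos
    have h5 : Nat.card Z * Z'.index = Nat.card Z * 4 := by rw [h1]; ring
    exact Nat.eq_of_mul_eq_mul_left h4 h5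
  let T : E := ⟨t, ht⟩
  let S : E := ⟨s, hs⟩
  let Y : E := ⟨y, hy⟩
  have hfin : Finite (E ⧸ Z') := inferInstance
  have : Fintype (E ⧸ Z') := Fintype.ofFinite _
  have hZt : ∀ c ∈ Z, ∀ x : X, x * c = c * x := fun c hc x => Subgroup.mem_center_iff.mp hc x
  have hmk : ∀ a b : E, (a : E ⧸ Z') = b → ∃ c ∈ Z, (b : X) = a * c := by
    intro a b hab
    rw [QuotientGroup.eq] at hab
    exact ⟨(a : X)⁻¹ * b, hab, by group⟩
  let F : Finset (E ⧸ Z') := {((1 : E) : E ⧸ Z'), (T : E ⧸ Z'), (S : E ⧸ Z'), ((T * S : E) : E ⧸ Z')}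
  have n1 : ((1 : E) : E ⧸ Z') ≠ T := by
    intro h
    obtain ⟨c, hc, h1⟩ := hmk _ _ h
    apply hts
    have h2 : t = c := by simpa using h1
    rw [h2]
    exact (hZt c hc s).symm
  have n2 : ((1 : E) : E ⧸ Z') ≠ S := by
    intro h
    obtain ⟨c, hc, h1⟩ := hmk _ _ h
    apply hts
    have h2 : s = c := by simpa using h1
    rw [h2]
    exact hZt c hc t
  have n3 : ((1 : E) : E ⧸ Z') ≠ ((T * S : E) : E ⧸ Z') := by
    intro h
    obtain ⟨c, hc, h1⟩ := hmk _ _ h
    apply hts
    have h2 : t * s = c := by simpa using h1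
    have h3 := hZt c hc t
    rw [← h2] at h3
    have h4 : t * (t * s) = t * (s * t) := by rw [h3]; group
    exact mul_left_cancel h4
  have n4 : (T : E ⧸ Z') ≠ S := by
    intro h
    obtain ⟨c, hc, h1⟩ := hmk _ _ h
    apply hts
    have h2 : s = t * c := h1
    rw [h2, hZt c hc t, ← mul_assoc, hZt c hc t]
  have n5 : (T : E ⧸ Z') ≠ ((T * S : E) : E ⧸ Z') := by
    intro h
    obtain ⟨c, hc, h1⟩ := hmk _ _ h
    apply hts
    have h2 : t * s = t * c := h1
    rw [mul_left_cancel h2]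
    exact hZt c hc t
  have n6 : (S : E ⧸ Z') ≠ ((T * S : E) : E ⧸ Z') := by
    intro h
    obtain ⟨c, hc, h1⟩ := hmk _ _ h
    apply hts
    have h2 : t * s = s * c := h1
    rw [hZt c hc s] at h2
    rw [mul_right_cancel h2]
    exact (hZt c hc s).symm
  have hF : F = Finset.univ := by
    apply Finset.eq_univ_of_card
    rw [← Nat.card_eq_fintype_card, hcard]
    rw [Finset.card_insert_of_notMem, Finset.card_insert_of_notMem, Finset.card_insert_of_notMem,
      Finset.card_singleton]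
    · rw [Finset.mem_singleton]
      exact n6
    · simp only [Finset.mem_insert, Finset.mem_singleton, not_or]
      exact ⟨n4, n5⟩
    · simp only [Finset.mem_insert, Finset.mem_singleton, not_or]
      exact ⟨n1, n2, n3⟩
  have hY : (Y : E ⧸ Z') ∈ F := by
    rw [hF]
    exact Finset.mem_univ _
  simp only [F, Finset.mem_insert, Finset.mem_singleton] at hY
  rcases hY with h | h | h | h
  · obtain ⟨c, hc, h1⟩ := hmk _ _ h.symm
    exact ⟨c, hc, Or.inl (by simpa using h1)⟩
  · obtain ⟨c, hc, h1⟩ := hmk _ _ h.symm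
    exact ⟨c, hc, Or.inr (Or.inl h1)⟩
  · obtain ⟨c, hc, h1⟩ := hmk _ _ h.symm
    exact ⟨c, hc, Or.inr (Or.inr (Or.inl h1))⟩
  · obtain ⟨c, hc, h1⟩ := hmk _ _ h.symm
    exact ⟨c, hc, Or.inr (Or.inr (Or.inr h1))⟩

/-- there is no involution outside the centre -/
lemma crit_noinv (hE : Crit X E 2 1) (h4 : ∀ c ∈ Subgroup.center X, c ^ 4 = 1 → c ^ 2 = 1)
    {t : X} (ht : t ∈ E) (ht2 : t ^ 2 = 1) : t ∈ Subgroup.center X := by
  classical
  by_contra hcon
  have hEn := hE.normal
  have hZt : ∀ c ∈ Subgroup.center X, ∀ x : X, x * c = c * x :=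
    fun c hc x => Subgroup.mem_center_iff.mp hc x
  obtain ⟨g, hg⟩ : ∃ g : X, t * (g * t * g⁻¹) ≠ g * t * g⁻¹ * t := by
    by_contra h
    push Not at h
    exact hcon (mem_center_of_conj hE.abel h)
  set s := g * t * g⁻¹ with hs
  have hsE : s ∈ E := hEn.conj_mem t ht g
  have hs2 : s ^ 2 = 1 := by
    rw [hs, conj_pow, ht2, mul_one, mul_inv_cancel]
  have ht' : t⁻¹ = t := by
    rw [pow_two] at ht2
    exact inv_eq_of_mul_eq_one_left ht2
  have hs' : s⁻¹ = s := by
    rw [pow_two] at hs2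
    exact inv_eq_of_mul_eq_one_left hs2
  set z := t * s * t⁻¹ * s⁻¹ with hz
  have hz1 : z ≠ 1 := by
    intro h
    apply hg
    have := congrArg (fun x => x * s * t) h
    simpa [hz, mul_assoc] using this
  have hzc : z ∈ Subgroup.center X := hE.comm t ht s hsE
  have hz2 : z ^ 2 = 1 := crit_comm hE ht hsE
  have hw2 : (t * s) ^ 2 = z := by
    rw [pow_two, hz, ht', hs']
    group
  have hno : ∀ c ∈ Subgroup.center X, c ^ 2 ≠ z := by
    intro c hc h
    apply hz1
    rw [← h]
    apply h4 c hc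
    rw [show (4 : ℕ) = 2 * 2 by norm_num, pow_mul, h, hz2]
  have hconj : ∀ h : X, ∃ c ∈ Subgroup.center X, h * (t * s) * h⁻¹ = t * s * c := by
    intro h
    have hy2 : (h * (t * s) * h⁻¹) ^ 2 = z := by
      rw [conj_pow, hw2, hZt z hzc h, mul_inv_cancel_right]
    obtain ⟨c, hc, h1⟩ := crit_four hE ht hsE hg
      (hEn.conj_mem _ (E.mul_mem ht hsE) h)
    rcases h1 with h1 | h1 | h1 | h1
    · exfalso
      rw [h1] at hy2
      exact hno c hc hy2
    · exfalso
      rw [h1, (show Commute t c from hZt c hc t).mul_pow, ht2, one_mul] at hy2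
      exact hno c hc hy2
    · exfalso
      rw [h1, (show Commute s c from hZt c hc s).mul_pow, hs2, one_mul] at hy2
      exact hno c hc hy2
    · exact ⟨c, hc, h1⟩
  have hw : t * s ∈ Subgroup.center X := by
    apply mem_center_of_conj hE.abel
    intro h
    obtain ⟨c, hc, h1⟩ := hconj h
    rw [h1, mul_assoc (t * s) c (t * s), ← hZt c hc (t * s)]
  have h5 := hZt _ hw t
  apply hg
  have h6 : t * (t * s) = t * (s * t) := by rw [h5]; group
  exact mul_left_cancel h6

/-- the `2`-part of an element modulo the centre -/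
lemma crit_two (hE : Crit X E 2 1) (h4 : ∀ c ∈ Subgroup.center X, c ^ 4 = 1 → c ^ 2 = 1)
    {x : X} (hx : x ∈ E) : ∃ c ∈ Subgroup.center X, (x * c) ^ 4 = 1 := by
  obtain ⟨k, m, hm, hkm⟩ := exists_odd_part (orderOf x) (orderOf_pos x).ne'
  have h1 : (x ^ m) ^ (2 ^ k) = 1 := by
    rw [← pow_mul, mul_comm, ← hkm, pow_orderOf_eq_one]
  obtain ⟨j, hj⟩ := hm
  have hxm : x ^ m = x * (x ^ 2) ^ j := by
    rw [hj, pow_succ', pow_mul]
  have hx2 := hE.pow x hx
  refine ⟨(x ^ 2) ^ j, Subgroup.pow_mem _ hx2 j, ?_⟩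
  rw [← hxm]
  -- the square of `x ^ m` is a central 2-element
  have hc : (x ^ m) ^ 2 ∈ Subgroup.center X := by
    rw [← pow_mul, mul_comm, pow_mul]
    exact Subgroup.pow_mem _ hx2 m
  have h5 : ∀ i : ℕ, ∀ c ∈ Subgroup.center X, c ^ 2 ^ i = 1 → c ^ 2 = 1 := by
    intro i
    induction i with
    | zero =>
      intro c _ h
      rw [pow_zero, pow_one] at h
      rw [h, one_pow]
    | succ i ih =>
      intro c hc h
      have h6 := ih (c ^ 2) (Subgroup.pow_mem _ hc 2) (by rw [← pow_mul, ← pow_succ', h])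
      exact h4 c hc (by rw [show (4 : ℕ) = 2 * 2 by norm_num, pow_mul, h6])
  have h6 := h5 k _ hc (by rw [← pow_mul, mul_comm, pow_mul, h1, one_pow])
  rw [show (4 : ℕ) = 2 * 2 by norm_num, pow_mul, h6]

/-- **Quaternion subgroups.** -/
theorem exists_quat (hE : Crit X E 2 1) (h4 : ∀ c ∈ Subgroup.center X, c ^ 4 = 1 → c ^ 2 = 1) :
    ∃ f : QuaternionGroup 2 →* X, Function.Injective f ∧ f.range ≤ E ∧
      f (QuaternionGroup.a 2) ∈ ⁅E, E⁆ := by
  classical
  have hZt : ∀ c ∈ Subgroup.center X, ∀ x : X, x * c = c * x :=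
    fun c hc x => Subgroup.mem_center_iff.mp hc x
  obtain ⟨x, hx, y, hy, hxy⟩ : ∃ x ∈ E, ∃ y ∈ E, x * y ≠ y * x := by
    by_contra hcon
    push Not at hcon
    have h2 : E ≤ Subgroup.center X := hE.abel E hE.normal hcon
    have h3 : E = Subgroup.center X := le_antisymm h2 hE.le
    have h4 := hE.card
    rw [h3] at h4
    have h5 : 0 < Nat.card (Subgroup.center X) := Nat.card_pos
    omega
  obtain ⟨c, hc, hu⟩ := crit_two hE h4 hx
  obtain ⟨d, hd, hv⟩ := crit_two hE h4 hy
  set u := x * c with hud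
  set v := y * d with hvd
  have huE : u ∈ E := E.mul_mem hx (hE.le hc)
  have hvE : v ∈ E := E.mul_mem hy (hE.le hd)
  have huv : u * v ≠ v * u := by
    intro h
    apply hxy
    have e1 : u * v = x * y * (c * d) := by
      rw [hud, hvd, mul_assoc x c, ← mul_assoc c y, ← hZt c hc y]
      group
    have e2 : v * u = y * x * (c * d) := by
      have e3 : d * (x * c) = x * (c * d) := by
        rw [← mul_assoc, ← hZt d hd x, mul_assoc, hZt c hc d]
      rw [hud, hvd, mul_assoc y d, e3]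
      group
    rw [e1, e2] at h
    exact mul_right_cancel h
  set z := u * v * u⁻¹ * v⁻¹ with hz
  have hzc : z ∈ Subgroup.center X := hE.comm u huE v hvE
  have hz2 : z ^ 2 = 1 := crit_comm hE huE hvE
  have hz1 : z ≠ 1 := by
    intro h
    apply huv
    have := congrArg (fun x => x * v * u) h
    simpa [hz, mul_assoc] using this
  have hcyc := hE.cyc
  -- squares
  have hsq : ∀ a ∈ E, a ^ 4 = 1 → a ∉ Subgroup.center X → a ^ 2 = z := by
    intro a ha ha4 hac
    have h5 : a ^ 2 ≠ 1 := fun h => hac (crit_noinv hE h4 ha h)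
    have h6 := mem_zpowers_of_cyclic hcyc Nat.prime_two
      (w := (⟨z, hzc⟩ : Subgroup.center X)) (y := ⟨a ^ 2, hE.pow a ha⟩)
      (Subtype.ext hz2) (fun h => hz1 (congrArg Subtype.val h))
      (Subtype.ext (by
        change (a ^ 2) ^ 2 = 1
        rw [← pow_mul]
        exact ha4))
    obtain ⟨k, hk⟩ := Subgroup.mem_zpowers_iff.mp h6
    have hk' : z ^ k = a ^ 2 := congrArg Subtype.val hk
    rcases Int.even_or_odd' k with ⟨j, rfl | rfl⟩
    · exfalso
      apply h5
      rw [← hk', zpow_mul, zpow_ofNat, hz2, one_zpow]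
    · rw [← hk', zpow_add, zpow_mul, zpow_ofNat, hz2, one_zpow, one_mul, zpow_one]
  have hu2 : u ^ 2 = z := hsq u huE hu (fun h => huv (hZt u h v).symm)
  have hv2 : v ^ 2 = z := hsq v hvE hv (fun h => huv (hZt v h u))
  have hrel : u * v = v * u⁻¹ := by
    have e1 : u * v = z * v * u := by rw [hz]; group
    have e2 : u⁻¹ = z * u := by
      apply inv_eq_of_mul_eq_one_left
      rw [mul_assoc, ← pow_two, hu2, ← pow_two, hz2]
    calc u * v = z * v * u := e1
      _ = v * z * u := by rw [hZt z hzc v]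
      _ = v * u⁻¹ := by rw [e2, mul_assoc]
  refine ⟨liftQ hu (hv2.trans hu2.symm) hrel, liftQ_inj _ _ _ (by rw [hu2]; exact hz1), ?_, ?_⟩
  · rintro _ ⟨q, rfl⟩
    rcases q with i | i
    · exact E.pow_mem huE _
    · exact E.mul_mem hvE (E.pow_mem huE _)
  · change z4 u 2 ∈ ⁅E, E⁆
    rw [z4_two, hu2, hz, ← commutatorElement_def]
    exact Subgroup.commutator_mem_commutator huE hvE

end crit

end Pool.Agent.N28.DL
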