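import Mathlib
import Pool.Agent.N28.DW.Q8
import Pool.Agent.N28.DJ.Bounds

/-!
# The multiplicity of the quaternion character
-/

set_option autoImplicit false
set_option linter.unusedSectionVars false

namespace Pool.Agent.N28.DL

open Pool.Agent.H302R2 Pool.Agent.H302R3 Pool.Agent.H541R3.ART Pool.Agent.W446.AS Pool.Agent.R389
  Pool.Agent.H302R5 Pool.Agent.H302R6

/-- No multiplicity of a quaternion character is one. -/
def NoSimple {G : Type} [Group G] (θ : G → ℂ) : Prop :=
  ∀ (H : Subgroup G) (f : H →* QuaternionGroup 2), Function.Surjective f →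
    pr (fun h : H => θ h) (fun h => quatChar (f h)) ≠ 1

lemma quat_cent : ∀ x : QuaternionGroup 2, x * QuaternionGroup.a 2 = QuaternionGroup.a 2 * x := by
  decide

lemma quat_conj : ∀ x : QuaternionGroup 2, x ≠ 1 → x ≠ QuaternionGroup.a 2 →
    ∃ y : QuaternionGroup 2, y * x * y⁻¹ = x * QuaternionGroup.a 2 := by
  decide

lemma a2_sq : (QuaternionGroup.a 2 : QuaternionGroup 2) * QuaternionGroup.a 2 = 1 := by
  decide

lemma a2_inv : (QuaternionGroup.a 2 : QuaternionGroup 2)⁻¹ = QuaternionGroup.a 2 := by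
  decide

lemma a2_ne : (QuaternionGroup.a 2 : QuaternionGroup 2) ≠ 1 := by
  decide

/-- sums over the quaternion group of functions supported on the centre -/
lemma quat_sum (F : QuaternionGroup 2 → ℂ)
    (h : ∀ x, x ≠ 1 → x ≠ QuaternionGroup.a 2 → F x = 0) :
    ∑ x, F x = F 1 + F (QuaternionGroup.a 2) := by
  classical
  rw [← Finset.add_sum_erase Finset.univ F (Finset.mem_univ 1),
    ← Finset.add_sum_erase _ F (Finset.mem_erase.mpr ⟨a2_ne, Finset.mem_univ _⟩),
    Finset.sum_eq_zero, add_zero]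
  intro x hx
  rw [Finset.mem_erase, Finset.mem_erase] at hx
  exact h x hx.2.1 hx.1

lemma qc_one : quatChar 1 = 2 := by
  rw [quat_qz]
  have : qz 1 = 2 := by decide
  rw [this]
  norm_num

lemma qc_two : quatChar (QuaternionGroup.a 2) = -2 := by
  rw [quat_qz]
  have : qz (QuaternionGroup.a 2) = -2 := by decide
  rw [this]
  norm_num

lemma qc_zero : ∀ x, x ≠ 1 → x ≠ QuaternionGroup.a 2 → quatChar x = 0 := by
  intro x h1 h2
  rw [quat_qz]
  have : ∀ x : QuaternionGroup 2, x ≠ 1 → x ≠ QuaternionGroup.a 2 → qz x = 0 := by decide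
  rw [this x h1 h2]
  norm_num

lemma card_Q8 : (Nat.card (QuaternionGroup 2) : ℂ) = 8 := by
  rw [Nat.card_eq_fintype_card, QuaternionGroup.card]
  norm_num

lemma pr_quat (η : QuaternionGroup 2 → ℂ) :
    pr η quatChar = (η 1 - η (QuaternionGroup.a 2)) / 4 := by
  classical
  rw [pr_eq, card_Q8, quat_sum (fun g => η g * quatChar g⁻¹)]
  · change (8 : ℂ)⁻¹ * (η 1 * quatChar 1⁻¹ + η (QuaternionGroup.a 2) *
      quatChar (QuaternionGroup.a 2)⁻¹) = _
    rw [inv_one, a2_inv, qc_one, qc_two]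
    ring
  · intro x h1 h2
    have h3 : quatChar x⁻¹ = 0 := by
      apply qc_zero
      · intro h
        exact h1 (inv_eq_one.mp h)
      · intro h
        apply h2
        rw [← inv_inv x, h, a2_inv]
    rw [h3, mul_zero]

/-- the faithful irreducible character -/
lemma irr_quat {ψ : QuaternionGroup 2 → ℂ} (hψ : ψ ∈ Irr (QuaternionGroup 2))
    (h : ψ (QuaternionGroup.a 2) ≠ ψ 1) : ψ = quatChar := by
  classical
  have hcl := (Virt.conj (AddSubgroup.subset_closure hψ) : _)
  obtain ⟨d, hd0, hd⟩ := irr_deg_pos hψ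
  have hself := pr_self hψ
  have hcen : ∀ x, ψ (x * QuaternionGroup.a 2) = -ψ x := by
    obtain ⟨n, σ, hσ, rfl⟩ := exists_rep hψ
    obtain ⟨ω, hω⟩ := hσ.central
    let z : Subgroup.center (QuaternionGroup 2) :=
      ⟨QuaternionGroup.a 2, Subgroup.mem_center_iff.mpr quat_cent⟩
    have h1 : ∀ x, σ.character (x * QuaternionGroup.a 2)
        = ((ω z : ℂˣ) : ℂ) * σ.character x := by
      intro x
      change LinearMap.trace ℂ _ (σ (x * QuaternionGroup.a 2)) = _ * LinearMap.trace ℂ _ (σ x)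
      have h2 : σ (x * QuaternionGroup.a 2) = ((ω z : ℂˣ) : ℂ) • σ x := by
        rw [map_mul]
        refine LinearMap.ext fun v => ?_
        rw [Module.End.mul_apply]
        have := hω z v
        change σ (QuaternionGroup.a 2) v = _ at this
        rw [this, map_smul, LinearMap.smul_apply]
      rw [h2, map_smul, smul_eq_mul]
    have h2 : ((ω z : ℂˣ) : ℂ) * ((ω z : ℂˣ) : ℂ) = 1 := by
      have h3 := h1 (QuaternionGroup.a 2)
      have h4 := h1 1
      rw [one_mul] at h4
      rw [a2_sq, h4] at h3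
      rw [hd] at h3
      have hd' : (d : ℂ) ≠ 0 := by exact_mod_cast hd0.ne'
      have h5 : (((ω z : ℂˣ) : ℂ) * ((ω z : ℂˣ) : ℂ)) * d = 1 * d := by
        rw [one_mul, mul_assoc]
        exact h3.symm
      exact mul_right_cancel₀ hd' h5
    have h3 : ((ω z : ℂˣ) : ℂ) = -1 := by
      rcases mul_self_eq_one_iff.mp h2 with h3 | h3
      · exfalso
        apply h
        have h4 := h1 1
        rw [one_mul, h3, one_mul] at h4
        exact h4
      · exact h3
    intro x
    rw [h1, h3]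
    ring
  have h0 : ∀ x, x ≠ 1 → x ≠ QuaternionGroup.a 2 → ψ x = 0 := by
    intro x h1 h2
    obtain ⟨y, hy⟩ := quat_conj x h1 h2
    have h3 := hcl x y
    rw [hy, hcen] at h3
    have h4 : (2 : ℂ) * ψ x = 0 := by linear_combination -h3
    exact (mul_eq_zero.mp h4).resolve_left two_ne_zero
  have hz := hcen 1
  rw [one_mul] at hz
  rw [pr_eq, card_Q8, quat_sum (fun g => ψ g * ψ g⁻¹) (fun x h1 h2 => by rw [h0 x h1 h2, zero_mul])]
    at hself
  change (8 : ℂ)⁻¹ * (ψ 1 * ψ 1⁻¹ + ψ (QuaternionGroup.a 2) * ψ (QuaternionGroup.a 2)⁻¹) = 1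
    at hself
  rw [inv_one, a2_inv, hz, hd] at hself
  have h5 : (d : ℂ) * d = 4 := by linear_combination 4 * hself
  have h6 : d * d = 4 := by exact_mod_cast h5
  have h7 : d = 2 := by nlinarith
  funext x
  by_cases hx1 : x = 1
  · rw [hx1, qc_one, hd, h7]
    norm_num
  · by_cases hx2 : x = QuaternionGroup.a 2
    · rw [hx2, qc_two, hz, hd, h7]
      norm_num
    · rw [qc_zero x hx1 hx2, h0 x hx1 hx2]

/-- the quaternion character is irreducible -/
lemma quat_irr : quatChar ∈ Irr (QuaternionGroup 2) := by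
  classical
  obtain ⟨ψ, hψ, hψ1⟩ : ∃ ψ ∈ Irr (QuaternionGroup 2), ψ (QuaternionGroup.a 2) ≠ ψ 1 := by
    by_contra hcon
    push Not at hcon
    let F : QuaternionGroup 2 → ℂ := fun x => if x = 1 then 1 else 0
    have hF : ∀ g x : QuaternionGroup 2, F (x * g * x⁻¹) = F g := by
      intro g x
      by_cases hg : g = 1
      · subst hg
        simp
      · have h1 : x * g * x⁻¹ ≠ 1 := by
          intro h
          apply hg
          have := congrArg (fun t => x⁻¹ * t * x) h
          simpa [mul_assoc] using this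
        simp only [F]
        rw [if_neg hg, if_neg h1]
    have h1 : F (QuaternionGroup.a 2) = F 1 := by
      rw [class_expand hF, class_expand hF 1]
      exact Finset.sum_congr rfl fun χ hχ => by rw [hcon χ (mem_irrF.mp hχ)]
    have h2 : F (QuaternionGroup.a 2) = 0 := if_neg a2_ne
    have h3 : F 1 = 1 := if_pos rfl
    rw [h2, h3] at h1
    exact one_ne_zero h1.symm
  rw [← irr_quat hψ hψ1]
  exact hψ

/-- characters of small degree which are not trivial on the centre -/
lemma quat_one {η : QuaternionGroup 2 → ℂ} (h : Genu η) {s : ℕ} (hs : η 1 = s) (hs3 : s ≤ 3)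
    (hne : η (QuaternionGroup.a 2) ≠ η 1) : pr η quatChar = 1 := by
  classical
  obtain ⟨ψ, hψ, hψ0, hψ1⟩ : ∃ ψ ∈ irrF (QuaternionGroup 2), pr η ψ ≠ 0 ∧
      ψ (QuaternionGroup.a 2) ≠ ψ 1 := by
    by_contra hcon
    push Not at hcon
    apply hne
    rw [h.virt.expand, h.virt.expand 1]
    refine Finset.sum_congr rfl fun χ hχ => ?_
    by_cases h0 : pr η χ = 0
    · rw [h0, zero_mul, zero_mul]
    · rw [hcon χ hχ h0]
  have hψ' := mem_irrF.mp hψ
  have h1 := irr_quat hψ' hψ1
  -- the multiplicities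
  have h3 := h.nat
  choose! kk hkk using h3
  choose! dd hdd hdd' using fun χ (hχ : χ ∈ Irr (QuaternionGroup 2)) => irr_deg_pos hχ
  have h4 : (s : ℂ) = ((∑ ψ ∈ irrF (QuaternionGroup 2), kk ψ * dd ψ : ℕ) : ℂ) := by
    rw [← hs, h.virt.expand, Nat.cast_sum]
    refine Finset.sum_congr rfl fun ψ hψ => ?_
    rw [hkk ψ (mem_irrF.mp hψ), hdd' ψ (mem_irrF.mp hψ)]
    push_cast
    rfl
  have h5 : s = ∑ ψ ∈ irrF (QuaternionGroup 2), kk ψ * dd ψ := by exact_mod_cast h4
  have h6 : kk ψ * dd ψ ≤ s := by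
    rw [h5]
    exact Finset.single_le_sum (f := fun ψ => kk ψ * dd ψ) (fun _ _ => Nat.zero_le _) hψ
  have h7 : dd ψ = 2 := by
    have := hdd' ψ hψ'
    rw [h1, qc_one] at this
    rw [h1]
    exact_mod_cast this.symm
  have h8 : kk ψ ≠ 0 := by
    intro h9
    apply hψ0
    rw [hkk ψ hψ', h9]
    simp
  have h9 : kk ψ = 1 := by
    rw [h7] at h6
    omega
  rw [← h1, hkk ψ hψ', h9]
  norm_num

end Pool.Agent.N28.DL
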