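import Mathlib
import Pool.Agent.N28.DW.Par
import Pool.Agent.N28.DJ.BoundsMain

/-!
# Bounds which exclude new zeros in primitive sections, with the parity for quaternion sections
-/

set_option autoImplicit false
set_option linter.unusedSectionVars false

namespace Pool.Agent.N28.DL

open Pool.Agent.H302R2 Pool.Agent.H302R3 Pool.Agent.H541R3.ART Pool.Agent.W446.AS Pool.Agent.R389
  Pool.Agent.H302R5 Pool.Agent.H302R6

lemma Genu.comp {A B : Type} [Group A] [Finite A] [Group B] [Finite B] {η : B → ℂ} (h : Genu η)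
    (f : A →* B) : Genu (fun y => η (f y)) := by
  induction h using AddSubmonoid.closure_induction with
  | mem χ hχ =>
    obtain ⟨n, ρ, -, rfl⟩ := exists_rep hχ
    exact char_memP n (ρ.comp f : Representation ℂ A (Fin n → ℂ)) (by simp)
  | zero => exact zero_mem (AddSubmonoid.closure (Irr A))
  | add a b _ _ ha hb => exact add_mem ha hb

/-- the part of `θ` in a quaternion subgroup of a section -/
lemma push_quat {G : Type} [Group G] [Finite G] {θ : G → ℂ} {H : Subgroup G} [Fintype H] {X : Type}
    [Group X] [Finite X] {q : H →* X} (hq : Function.Surjective q) {f : QuaternionGroup 2 →* X}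
    (hf : Function.Injective f) : ∃ (H' : Subgroup G) (g : H' →* QuaternionGroup 2),
      Function.Surjective g ∧
      pr (fun x : H' => θ x) (fun x => quatChar (g x))
        = pr (fun y => push q (fun x : H => θ x) (f y)) quatChar := by
  classical
  let H₁ : Subgroup H := f.range.comap q
  let H' : Subgroup G := H₁.map H.subtype
  let e : H' ≃* H₁ := (H₁.equivMapOfInjective H.subtype H.subtype_injective).symm
  have he : ∀ x : H', (((e x : H₁) : H) : G) = x := by
    intro x
    have h1 : ∀ y : H₁, ((e.symm y : H') : G) = ((y : H) : G) := fun y => rfl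
    rw [← h1, e.symm_apply_apply]
  let g : H' →* QuaternionGroup 2 := ((MonoidHom.ofInjective hf).symm.toMonoidHom.comp
    (q.subgroupComap f.range)).comp e.toMonoidHom
  have hg : ∀ x : H', f (g x) = q ((e x : H₁) : H) := by
    intro x
    exact MonoidHom.apply_ofInjective_symm hf (q.subgroupComap f.range (e x))
  have hgs : Function.Surjective g := by
    intro y
    obtain ⟨h, hh⟩ := hq (f y)
    have h1 : h ∈ H₁ := ⟨y, hh.symm⟩
    refine ⟨e.symm ⟨h, h1⟩, hf ?_⟩
    rw [hg, e.apply_symm_apply]
    exact hh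
  refine ⟨H', g, hgs, ?_⟩
  have : Fintype H' := Fintype.ofFinite _
  have : Fintype g.ker := Fintype.ofFinite _
  have : Fintype q.ker := Fintype.ofFinite _
  rw [← pr_push hgs]
  congr 1
  funext y
  obtain ⟨x, rfl⟩ := hgs y
  rw [hg, push_apply, push_apply]
  have hker : ∀ n : q.ker, (n : H) ∈ H₁ := fun n =>
    ⟨1, (map_one f).trans (MonoidHom.mem_ker.mp n.2).symm⟩
  have hk1 : ∀ n : g.ker, ((e n : H₁) : H) ∈ q.ker := by
    intro n
    rw [MonoidHom.mem_ker, ← hg, MonoidHom.mem_ker.mp n.2, map_one]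
  have hk2 : ∀ n : q.ker, e.symm ⟨n, hker n⟩ ∈ g.ker := by
    intro n
    rw [MonoidHom.mem_ker]
    apply hf
    rw [hg, e.apply_symm_apply]
    exact (MonoidHom.mem_ker.mp n.2).trans (map_one f).symm
  let i : g.ker ≃ q.ker :=
    { toFun := fun n => ⟨((e n : H₁) : H), hk1 n⟩
      invFun := fun n => ⟨e.symm ⟨n, hker n⟩, hk2 n⟩
      left_inv := by
        intro n
        apply Subtype.ext
        exact e.symm_apply_apply (n : H')
      right_inv := by
        intro n
        apply Subtype.ext
        change ((e (e.symm _) : H₁) : H) = n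
        rw [e.apply_symm_apply] }
  rw [Nat.card_congr i]
  congr 1
  rw [← Equiv.sum_comp i]
  refine Finset.sum_congr rfl fun n _ => ?_
  change θ ((x : G) * ((n : H') : G)) = θ ((((e x : H₁) : H) : G) * (((e n : H₁) : H) : G))
  rw [he, he]

section main

variable {G : Type} [Group G] [Finite G] {θ : G → ℂ}

/-- **The bounds.** -/
theorem oldSec_of_boundsQ {J : Set ℕ} (hθ : Genu θ) (hG : GSt J θ) (hpar : NoSimple θ) {dd : ℕ → ℕ}
    (hJ : ∀ p q : ℕ, p.Prime → p ∣ q → q ∣ Monoid.exponent G → ResQ J p q (dd q))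
    {sE sF : ℕ → ℕ} {sC k : ℕ}
    (hsE : ∀ p : ℕ, p.Prime → ∀ s' : ℕ, (θ - inv (pgen p G) θ) 1 = s' → s' ≤ sE p)
    (hsF : ∀ p : ℕ, p.Prime → ∀ s' : ℕ, (θ - inv (derP p (⊤ : Subgroup G)) θ) 1 = s' → s' ≤ sF p)
    (hsC : ∀ s' : ℕ, (θ - inv (derivedSeries G k) θ) 1 = s' → s' ≤ sC)
    (hF : ∀ (X : Type) [Group X] [Finite X], IsSec G X → Prim X →
      (∀ p : ℕ, p.Prime → p ∣ Nat.card X → dd p ≤ sE p) →
      ∀ (E : Subgroup X) (p n : ℕ), Crit X E p n →
        sF p < dd (p ^ (Nat.card (Subgroup.center X)).factorization p) * p ^ n ∨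
        (p = 2 ∧ n = 1 ∧ (Nat.card (Subgroup.center X)).factorization 2 = 1 ∧ sF 2 ≤ 3))
    (hC : ∀ (T : Type) [Group T] [Finite T], IsSec G T →
      (∀ p : ℕ, p.Prime → p ∣ Nat.card T → dd p ≤ sE p) → QSimple T →
      ∀ χ ∈ Irr T, (∃ t, χ t ≠ 1) → ∀ d : ℕ, χ 1 = d → sC < d) : OldSec θ := by
  classical
  intro H X _ _ q hq hX
  obtain ⟨hcyc, hab, hne⟩ := hX.props
  have : Fintype H := Fintype.ofFinite H
  have hX' : Finite X := inferInstance
  -- it suffices to find `Y` for the push forward
  suffices h : ∃ Y : Subgroup X, Y.Normal ∧ Y ≠ ⊥ ∧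
      ∀ x, ∀ y ∈ Y, push q (fun x : H => θ x) (x * y) = push q (fun x : H => θ x) x by
    obtain ⟨Y, h1, h2, h3⟩ := h
    refine ⟨Y, h1, h2, fun a b hb => ?_⟩
    rw [← push_inv, ← push_inv, map_mul]
    exact h3 _ _ hb
  have hexpX : ∀ x : X, orderOf x ∣ Monoid.exponent G := by
    intro x
    obtain ⟨h, rfl⟩ := hq x
    refine (orderOf_map_dvd q h).trans ?_
    rw [← Subgroup.orderOf_coe]
    exact Monoid.order_dvd_exponent _
  -- primes with many conjugate roots of unity
  by_cases hsmall : ∀ p : ℕ, p.Prime → p ∣ Nat.card X → dd p ≤ sE p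
  swap
  · push Not at hsmall
    obtain ⟨p, hp, hpX, hdp⟩ := hsmall
    have : Fact p.Prime := ⟨hp⟩
    obtain ⟨x, hx⟩ := exists_prime_orderOf_dvd_card' p hpX
    have hx1 : x ^ p = 1 := by rw [← hx, pow_orderOf_eq_one]
    obtain ⟨η₀, η₁, h1, h2, h3, h4, h5, s'', h6, h7⟩ := decomp hθ hG hq (pgen_normal p G)
      (hsE p hp)
    have h8 := elem_J hp (hJ p p hp dvd_rfl (by rw [← hx]; exact hexpX x)) hdp hx1 h1 h2.ha h3
      h4.ha (fun g => h5 g x (lift_prime hq hp hx1)) h6 h7
    refine ⟨Subgroup.normalClosure {x}, inferInstance, ?_,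
      inv_nclosure h2.ha.conj (fun y hy => ?_)⟩
    · intro h
      have h9 : x ∈ Subgroup.normalClosure {x} := Subgroup.subset_normalClosure rfl
      rw [h, Subgroup.mem_bot] at h9
      rw [h9, orderOf_one] at hx
      exact hp.one_lt.ne hx
    · rw [Set.mem_singleton_iff] at hy
      rw [hy]
      exact h2.ker h8
  -- a minimal normal subgroup above the centre
  let Z := Subgroup.center X
  have hZtop : (⊤ : Subgroup X) ≠ Z := by
    intro h
    obtain ⟨a, b, hab'⟩ := hne
    apply hab'
    have h1 : b ∈ Z := by rw [← h]; exact Subgroup.mem_top b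
    exact Subgroup.mem_center_iff.mp h1 a
  let P : Set (Subgroup X) := {M | M.Normal ∧ Z ≤ M ∧ M ≠ Z}
  have hP : (⊤ : Subgroup X) ∈ P := ⟨inferInstance, le_top, hZtop⟩
  obtain ⟨F, hFP, hFmin⟩ := (Set.toFinite P).exists_minimal ⟨⊤, hP⟩
  obtain ⟨hFn, hZF, hFZ⟩ := hFP
  have hmin : ∀ M : Subgroup X, M.Normal → Z ≤ M → M ≤ F → M = Z ∨ M = F := by
    intro M h1 h2 h3
    by_cases h : M = Z
    · exact Or.inl h
    · exact Or.inr (le_antisymm h3 (hFmin ⟨h1, h2, h⟩ h3))
  by_cases hFc : ∀ x ∈ F, ∀ y ∈ F, x * y * x⁻¹ * y⁻¹ ∈ Subgroup.center X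
  · -- frames
    obtain ⟨E, p, n, hEF, hE⟩ := exists_crit_le hab hcyc hFn hZF hFZ hFc
    have hEn := hE.normal
    obtain ⟨h0, hder⟩ := crit_der hq hE
    obtain ⟨η₀, η₁, h1, h2, h3, h4, h5, s'', h6, h7⟩ := decomp hθ hG hq (derP_normal p _)
      (hsF p hE.prime)
    rcases hF X ⟨H, q, hq⟩ hX hsmall E p n hE with hlt | ⟨rfl, rfl, hfac, hs3⟩
    · -- the order of the centre
      have hpZ : p ∣ Nat.card Z := by
        -- some commutator is nontrivial
        obtain ⟨x, hx, y, hy, hxy⟩ : ∃ x ∈ E, ∃ y ∈ E, x * y * x⁻¹ * y⁻¹ ≠ 1 := by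
          by_contra hcon
          push Not at hcon
          apply h0
          rw [eq_bot_iff, Subgroup.commutator_le]
          intro x hx y hy
          rw [Subgroup.mem_bot, commutatorElement_def]
          exact hcon x hx y hy
        have : Fact p.Prime := ⟨hE.prime⟩
        have h8 : orderOf (⟨x * y * x⁻¹ * y⁻¹, hE.comm x hx y hy⟩ : Z) = p := by
          refine orderOf_eq_prime (Subtype.ext (crit_comm hE hx hy)) ?_
          intro h
          exact hxy (congrArg Subtype.val h)
        rw [← h8]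
        exact orderOf_dvd_natCard _
      have hexp : p ^ (Nat.card Z).factorization p ∣ Monoid.exponent G := by
        obtain ⟨g, hg⟩ := hcyc.exists_generator
        have hog : orderOf g = Nat.card Z := orderOf_eq_card_of_forall_mem_zpowers hg
        refine (Nat.ordProj_dvd _ _).trans ?_
        rw [← hog, ← Subgroup.orderOf_coe]
        exact hexpX _
      have hpq : p ∣ p ^ (Nat.card Z).factorization p :=
        dvd_pow_self p (hE.prime.factorization_pos_of_dvd Nat.card_pos.ne' hpZ).ne'
      exact ⟨⁅E, E⁆, inferInstance, h0, crit_rigJ hE (hJ p _ hE.prime hpq hexp)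
        hlt _ η₀ η₁ h1 h2.ha h3 h4.ha
        (fun x y hy => h5 x y (hder hy)) s'' h6 h7⟩
    · -- quaternion subgroups
      have hno4 : ∀ c ∈ Subgroup.center X, c ^ 4 = 1 → c ^ 2 = 1 := by
        intro c hc hc4
        by_contra hc2
        have h8 : orderOf (⟨c, hc⟩ : Z) = 4 := by
          have h9 : orderOf (⟨c, hc⟩ : Z) = 2 ^ (1 + 1) := by
            have : Fact (Nat.Prime 2) := ⟨Nat.prime_two⟩
            refine orderOf_eq_prime_pow ?_ ?_
            · intro h
              exact hc2 (congrArg Subtype.val h)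
            · exact Subtype.ext hc4
          simpa using h9
        have h9 : 2 ^ 2 ∣ Nat.card Z := by
          have := orderOf_dvd_natCard (⟨c, hc⟩ : Z)
          rw [h8] at this
          exact this
        have h10 := (Nat.Prime.pow_dvd_iff_le_factorization Nat.prime_two
          (Nat.card_pos (α := Z)).ne').mp h9
        have h11 : (Nat.card Z).factorization 2 = 1 := hfac
        omega
      obtain ⟨f, hfi, hfE, hfc⟩ := exists_quat hE hno4
      obtain ⟨H', g, hg, hpr⟩ := push_quat (θ := θ) hq hfi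
      have hpar' := hpar H' g hg
      rw [hpr, h1] at hpar'
      set t := f (QuaternionGroup.a 2) with ht
      have ht1 : t ≠ 1 := by
        intro h
        exact a2_ne (hfi (by rw [← ht, h, map_one]))
      have e0 : η₀ t = η₀ 1 := by
        have := h5 1 t (hder hfc)
        rwa [one_mul] at this
      have hq1 : Genu (fun y : QuaternionGroup 2 => η₁ (f y)) := h4.comp f
      have e1 : η₁ t = η₁ 1 := by
        by_contra hcon
        apply hpar'
        have h8 := quat_one hq1 (s := s'') (by
          change η₁ (f 1) = s''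
          rw [map_one, h7]) (h6.trans hs3) (by
            change η₁ (f (QuaternionGroup.a 2)) ≠ η₁ (f 1)
            rw [map_one]
            exact hcon)
        rw [← h8, pr_quat, pr_quat]
        change ((η₀ (f 1) + η₁ (f 1)) - (η₀ t + η₁ t)) / 4 = (η₁ (f 1) - η₁ t) / 4
        rw [map_one, e0]
        ring
      have h9 : push q (fun x : H => θ x) t = push q (fun x : H => θ x) 1 := by
        rw [h1, Pi.add_apply, Pi.add_apply, e0, e1]
      refine ⟨Subgroup.normalClosure {t}, inferInstance, ?_,
        inv_nclosure h2.ha.conj (fun y hy => ?_)⟩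
      · intro h
        have h10 : t ∈ Subgroup.normalClosure {t} := Subgroup.subset_normalClosure rfl
        rw [h, Subgroup.mem_bot] at h10
        exact ht1 h10
      · rw [Set.mem_singleton_iff] at hy
        rw [hy]
        exact h2.ker h9
  · -- components
    obtain ⟨T, hTF, hTT, hTq⟩ := exists_comp hFn hZF hmin hFc
    obtain ⟨η₀, η₁, h1, h2, h3, h4, h5, s'', h6, h7⟩ := decomp hθ hG hq
      (inferInstance : (derivedSeries G k).Normal) hsC
    have hTsec : IsSec G T := by
      let H' : Subgroup G := (T.comap q).map H.subtype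
      let e : H' ≃* T.comap q :=
        ((T.comap q).equivMapOfInjective H.subtype H.subtype_injective).symm
      let q' : T.comap q →* T :=
        { toFun := fun h => ⟨q h, h.2⟩
          map_one' := by apply Subtype.ext; simp
          map_mul' := by intro a b; apply Subtype.ext; simp }
      refine ⟨H', q'.comp e.toMonoidHom, ?_⟩
      have hq' : Function.Surjective q' := by
        rintro ⟨t, ht⟩
        obtain ⟨h, rfl⟩ := hq t
        exact ⟨⟨h, ht⟩, rfl⟩
      exact hq'.comp e.surjective
    have hTle := perfect_le hq hTT k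
    have hT1 : Genu (fun t : T => η₁ t) := h4.res T
    have h8 := hT1.small (s := s'') (by rw [← h7]; rfl) (fun χ hχ hne d hd =>
      lt_of_le_of_lt h6 (hC T hTsec (fun p hp hpT => hsmall p hp
        (hpT.trans T.card_subgroup_dvd_card)) hTq χ hχ hne d hd))
    have h9 : ∀ t ∈ T, push q (fun x : H => θ x) t = push q (fun x : H => θ x) 1 := by
      intro t ht
      rw [h1, Pi.add_apply, Pi.add_apply]
      have e0 : η₀ t = η₀ 1 := by
        have := h5 1 t (hTle ht)
        rwa [one_mul] at this
      have e1 : η₁ t = η₁ 1 := h8 ⟨t, ht⟩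
      rw [e0, e1]
    refine ⟨Subgroup.normalClosure (T : Set X), inferInstance, ?_,
      inv_nclosure h2.ha.conj (fun y hy => h2.ker (h9 y hy))⟩
    intro h
    obtain ⟨⟨t, ht⟩, ht1⟩ := hTq.1
    have h10 : t ∈ Subgroup.normalClosure (T : Set X) := Subgroup.subset_normalClosure ht
    rw [h, Subgroup.mem_bot] at h10
    exact ht1 (Subtype.ext h10)

end main

end Pool.Agent.N28.DL
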