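import Mathlib
import Pool.Agent.N28.DW.BoundsQ
import Pool.Agent.R389.TwoMain
import Pool.Agent.H32BU.TBUR
import Pool.Agent.H32BU.TPPC
import Pool.Agent.H32BU.TWED
import Pool.Agent.H32BU.TTRZ
import Pool.Agent.H32BU.TINTG
import Pool.Agent.H32BU.TNRM
import Pool.Agent.H32BU.TCEN
import Pool.Agent.H32BU.TTRI

/-!
# Deligne's conjecture for arbitrary groups and few zeros, with the parity for quaternion sections
-/

set_option autoImplicit false
set_option linter.unusedSectionVars false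

namespace Pool.Agent.N28.DL

open Pool.Agent.H302R2 Pool.Agent.H302R3 Pool.Agent.H541R3.ART Pool.Agent.W446.AS Pool.Agent.R389
  Pool.Agent.H302R5 Pool.Agent.H302R6 Filter Topology

variable {G : Type} [Group G] [Finite G]

/-- the parity of the orders of the quaternion twists -/
lemma no_simple {l : (G → ℂ) → ℂ → ℂ} {c : ℂ}
    (hl : ∀ χ ∈ Irr G, MeromorphicAt (l χ) c ∧ meromorphicOrderAt (l χ) c ≠ ⊤)
    (hquat : ∀ (H : Subgroup G) (f : H →* QuaternionGroup 2), Function.Surjective f →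
      ∀ m : (G → ℂ) → ℕ, IsDecomp (ind H (fun h => quatChar (f h))) m →
        meromorphicOrderAt (fun s => ∏ᶠ χ ∈ Irr G, l χ s ^ m χ) c ≠ 1) :
    NoSimple (theta (ords l c) : G → ℂ) := by
  classical
  intro H f hf hθf
  have hirr : (fun h : H => quatChar (f h)) ∈ Irr H := irr_comp hf quat_irr
  have hnat : ∀ χ ∈ Irr G, ∃ n : ℕ, pr (ind H (fun h => quatChar (f h))) χ = n := by
    intro χ hχ
    rw [frob _ _ (Irr.conj hχ), pr_comm]
    refine nat_closure (fun η hη => ?_) (res_memP hχ)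
    by_cases he : η = fun h : H => quatChar (f h)
    · exact ⟨1, by rw [he, pr_self hirr]; simp⟩
    · exact ⟨0, by rw [pr_ne hη hirr he]; simp⟩
  choose! m hm using hnat
  refine hquat H f hf m (IsDecomp.of_pr (fun g x => ind_class _ _ g x) hm) ?_
  have h3 := order_prod hl (irrF G) subset_rfl (fun χ => (m χ : ℤ))
  have h4 : (fun s => ∏ᶠ χ ∈ Irr G, l χ s ^ m χ)
      = fun z => ∏ χ ∈ irrF G, l χ z ^ ((m χ : ℕ) : ℤ) := by
    funext s
    rw [finprod_irr (fun χ => l χ s ^ m χ)]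
    exact Finset.prod_congr rfl fun χ _ => by rw [zpow_natCast]
  rw [h4, h3.2]
  have h5 := pr_ords (l := l) (c := c) (m := fun χ => (m χ : ℤ))
    (fun χ hχ => by rw [hm χ hχ]; simp)
  rw [frob' _ _ (theta_virt _).conj, hθf] at h5
  have h6 : ∑ χ ∈ irrF G, (m χ : ℤ) * ords l c χ = 1 := by exact_mod_cast h5.symm
  rw [h6]
  rfl

variable {E : Type} [Field E] {P : (E →+* ℂ) → (G → ℂ) → ℂ} {c : ℂ}

/-- primitive sections are old -/
theorem old_boundsQ [NumberField E] {F : Type} [Field F] [Algebra F E]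
    {ℓ : (F →+* ℂ) → (G → ℂ) → ℂ → ℂ} {ζ : E} (hζ : IsPrimitiveRoot ζ (Monoid.exponent G))
    (hL : ∀ τ, ∀ χ ∈ Irr G, MeromorphicAt (ℓ τ χ) c ∧ meromorphicOrderAt (ℓ τ χ) c ≠ ⊤)
    (hpos : ∀ τ, ∀ χ ∈ Irr G, 0 ≤ meromorphicOrderAt (ℓ τ χ) c)
    (hP : ∀ τ, ∀ χ ∈ Irr G, P τ χ ≠ 0)
    (hmon : ∀ (U : Subgroup G) (ψ : U →* Eˣ),
      Deligne (fun τ => ℓ (τ.comp (algebraMap F E))) P c (ind U (fun u => ((ψ u : Eˣ) : E))))
    (τ₀ : E →+* ℂ) (ord : Subgroup G → ℤ) (hord : ∀ U : Subgroup G, ∃ m : (G → ℂ) → ℕ,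
      IsDecomp (ind U (fun _ => (1 : ℂ))) m ∧
      meromorphicOrderAt (fun s => ∏ᶠ χ ∈ Irr G, ℓ (τ₀.comp (algebraMap F E)) χ s ^ m χ) c
        = ord U)
    (hquat : ∀ (H : Subgroup G) (f : H →* QuaternionGroup 2), Function.Surjective f →
      ∀ m : (G → ℂ) → ℕ, IsDecomp (ind H (fun h => quatChar (f h))) m →
        meromorphicOrderAt (fun s => ∏ᶠ χ ∈ Irr G,
          ℓ (τ₀.comp (algebraMap F E)) χ s ^ m χ) c ≠ 1)
    {sE sF : ℕ → ℕ} {sC k : ℕ}
    (hsE : ∀ p : ℕ, p.Prime → ord ⊥ ≤ ord (pgen p G) + sE p)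
    (hsF : ∀ p : ℕ, p.Prime → ord ⊥ ≤ ord (derP p (⊤ : Subgroup G)) + sF p)
    (hsC : ord ⊥ ≤ ord (derivedSeries G k) + sC)
    (hF : ∀ (X : Type) [Group X] [Finite X], IsSec G X → Prim X →
      (∀ p : ℕ, p.Prime → p ∣ Nat.card X →
        Module.finrank F (CyclotomicField p F) ≤ sE p) →
      ∀ (E : Subgroup X) (p n : ℕ), Crit X E p n →
        sF p < Module.finrank F (CyclotomicField
          (p ^ (Nat.card (Subgroup.center X)).factorization p) F) * p ^ n ∨
        (p = 2 ∧ n = 1 ∧ (Nat.card (Subgroup.center X)).factorization 2 = 1 ∧ sF 2 ≤ 3))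
    (hC : ∀ (T : Type) [Group T] [Finite T], IsSec G T →
      (∀ p : ℕ, p.Prime → p ∣ Nat.card T →
        Module.finrank F (CyclotomicField p F) ≤ sE p) → QSimple T →
      ∀ χ ∈ Irr T, (∃ t, χ t ≠ 1) → ∀ d : ℕ, χ 1 = d → sC < d) :
    ∀ χ ∈ Irr G, R389.Mono χ ∨
      χ ∈ GoodA (theta (ords (ℓ (τ₀.comp (algebraMap F E))) c) : G → ℂ) := by
  classical
  have hL' : ∀ τ : E →+* ℂ, ∀ χ ∈ Irr G, MeromorphicAt (ℓ (τ.comp (algebraMap F E)) χ) c ∧
      meromorphicOrderAt (ℓ (τ.comp (algebraMap F E)) χ) c ≠ ⊤ := fun τ => hL _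
  have hθ : Genu (theta (ords (ℓ (τ₀.comp (algebraMap F E))) c) : G → ℂ) :=
    genu_ords (fun χ hχ => hpos _ χ hχ) (fun χ hχ => (hL _ χ hχ).2)
  have hG := gst_ordsJ (F := F) hζ hL hP hmon τ₀
  have hpar : NoSimple (theta (ords (ℓ (τ₀.comp (algebraMap F E))) c) : G → ℂ) :=
    no_simple (hL' τ₀) hquat
  set θ : G → ℂ := theta (ords (ℓ (τ₀.comp (algebraMap F E))) c) with hθd
  have hpr : ∀ U : Subgroup G, pr θ (ind U (fun _ => (1 : ℂ))) = ord U := by
    intro U
    obtain ⟨m, hm, hmk⟩ := hord U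
    obtain ⟨z, hz1, hz2⟩ := order_eq_pr (L := fun τ => ℓ (τ.comp (algebraMap F E))) hL' τ₀ hm
    rw [hz1] at hmk
    have h1 : z = ord U := by exact_mod_cast hmk
    change pr (theta (ords (ℓ (τ₀.comp (algebraMap F E))) c) : G → ℂ) _ = _ at hz2
    rw [hθd, hz2, h1]
  have hone : θ 1 = ord ⊥ := by
    have h1 : inv (⊥ : Subgroup G) θ = θ := inv_of_const _ (fun g k hk => by
      rw [Subgroup.mem_bot] at hk
      rw [hk, mul_one])
    rw [← hpr, ← inv_one_eq hθ.ha, h1]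
  have hnew : ∀ (R : Subgroup G) (s : ℕ), ord ⊥ ≤ ord R + s →
      ∀ s' : ℕ, (θ - inv R θ) 1 = s' → s' ≤ s := by
    intro R s hs s' hs'
    rw [Pi.sub_apply, hone, inv_one_eq hθ.ha, hpr] at hs'
    have h1 : ord ⊥ - ord R = (s' : ℤ) := by exact_mod_cast hs'
    omega
  have hO : OldSec θ := oldSec_of_boundsQ hθ hG hpar
    (fun p q hp hpq hq => exists_res Monoid.exponent_ne_zero_of_finite hζ τ₀ hp hpq hq)
    (fun p hp => hnew _ _ (hsE p hp)) (fun p hp => hnew _ _ (hsF p hp)) (hnew _ _ hsC) hF hC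
  exact fun χ hχ => gtN (Nat.card G) G rfl θ hθ.ha hO χ hχ

/-- Burnside's theorem -/
lemma burnside {T : Type} [Group T] [Finite T] {p q : ℕ} (hp : p.Prime) (hq : q.Prime)
    (h : ∀ r : ℕ, r.Prime → r ∣ Nat.card T → r = p ∨ r = q) : Group.IsSolvable T := by
  have hB : Pool.Agent.H32BU.S_BUR := Pool.Agent.H32BU.t_BUR
    (Pool.Agent.H32BU.t_PPC Pool.Agent.H32BU.t_WED Pool.Agent.H32BU.t_TRZ
      Pool.Agent.H32BU.t_INTG (Pool.Agent.H32BU.t_NRM Pool.Agent.H32BU.t_INTG)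
      Pool.Agent.H32BU.t_CEN Pool.Agent.H32BU.t_TRI)
  have hcard : ∀ n : ℕ, n ≠ 0 → (∀ r : ℕ, r.Prime → r ∣ n → r = p ∨ r = q) →
      ∃ a b : ℕ, n = p ^ a * q ^ b := by
    intro n
    induction n using Nat.strong_induction_on with
    | _ n ih =>
      intro hn hr
      by_cases h1 : n = 1
      · exact ⟨0, 0, by simp [h1]⟩
      · obtain ⟨r, hrp, hrn⟩ := Nat.exists_prime_and_dvd h1
        obtain ⟨m, hm⟩ := hrn
        have hm0 : m ≠ 0 := by
          rintro rfl
          exact hn (by rw [hm, mul_zero])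
        have hmn : m < n := by
          rw [hm]
          exact lt_mul_of_one_lt_left (Nat.pos_of_ne_zero hm0) hrp.one_lt
        obtain ⟨a, b, hab⟩ := ih m hmn hm0 (fun r' hr' hd => hr r' hr' (hd.trans ⟨r, by rw [hm]; ring⟩))
        rcases hr r hrp ⟨m, hm⟩ with rfl | rfl
        · exact ⟨a + 1, b, by rw [hm, hab]; ring⟩
        · exact ⟨a, b + 1, by rw [hm, hab]; ring⟩
  obtain ⟨a, b, hab⟩ := hcard (Nat.card T) Nat.card_pos.ne' h
  exact hB T p q a b hp hq hab

/-- quasisimple groups are not solvable -/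
lemma qsimple_prime {T : Type} [Group T] [Finite T] (hT : QSimple T) {p q : ℕ} (hp : p.Prime)
    (hq : q.Prime) : ∃ r : ℕ, r.Prime ∧ r ∣ Nat.card T ∧ r ≠ p ∧ r ≠ q := by
  by_contra hcon
  push Not at hcon
  have h1 : Group.IsSolvable T := burnside hp hq (fun r hr hd => by
    by_cases h : r = p
    · exact Or.inl h
    · exact Or.inr (hcon r hr hd h))
  obtain ⟨⟨t, ht⟩, hcom, -⟩ := hT
  obtain ⟨n, hn⟩ := (Group.isSolvable_def T).mp h1
  have h2 : ∀ n : ℕ, derivedSeries T n = ⊤ := by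
    intro n
    induction n with
    | zero => rfl
    | succ n ih => rw [derivedSeries_succ, ih]; exact hcom
  rw [h2] at hn
  have h3 : t ∈ (⊥ : Subgroup T) := by
    rw [← hn]
    exact Subgroup.mem_top t
  exact ht (Subgroup.mem_bot.mp h3)

lemma finrank_cyc {F : Type} [Field F] [CharZero F] {q : ℕ} (hq : q ≠ 0)
    (h : Irreducible (Polynomial.cyclotomic q F)) :
    Module.finrank F (CyclotomicField q F) = q.totient := by
  have : NeZero q := ⟨hq⟩
  exact IsCyclotomicExtension.finrank (CyclotomicField q F) h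

/-- **Rational motives: Deligne's conjecture for arbitrary groups and few zeros.** -/
theorem main_W [NumberField E] {ℓ : (G → ℂ) → ℂ → ℂ} {ζ : E}
    (hζ : IsPrimitiveRoot ζ (Monoid.exponent G))
    (hL : ∀ χ ∈ Irr G, MeromorphicAt (ℓ χ) c ∧ meromorphicOrderAt (ℓ χ) c ≠ ⊤)
    (hpos : ∀ χ ∈ Irr G, 0 ≤ meromorphicOrderAt (ℓ χ) c)
    (hP : ∀ τ, ∀ χ ∈ Irr G, P τ χ ≠ 0)
    (hmon : ∀ (U : Subgroup G) (ψ : U →* Eˣ),
      Deligne (fun _ => ℓ) P c (ind U (fun u => ((ψ u : Eˣ) : E))))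
    (ord : Subgroup G → ℤ) (hord : ∀ U : Subgroup G, ∃ m : (G → ℂ) → ℕ,
      IsDecomp (ind U (fun _ => (1 : ℂ))) m ∧
      meromorphicOrderAt (fun s => ∏ᶠ χ ∈ Irr G, ℓ χ s ^ m χ) c = ord U)
    (hquat : ∀ (H : Subgroup G) (f : H →* QuaternionGroup 2), Function.Surjective f →
      ∀ m : (G → ℂ) → ℕ, IsDecomp (ind H (fun h => quatChar (f h))) m →
        meromorphicOrderAt (fun s => ∏ᶠ χ ∈ Irr G, ℓ χ s ^ m χ) c ≠ 1)
    {a b : ℕ → ℕ}
    (ha : ∀ p : ℕ, p.Prime → ord ⊥ ≤ ord (pgen p G) + a p)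
    (hb : ∀ p : ℕ, p.Prime → ord ⊥ ≤ ord (derP p (⊤ : Subgroup G)) + b p)
    (h2 : b 2 ≤ 3) (h3 : a 3 ≤ 1 ∨ b 3 ≤ 5)
    (h5 : ∀ p : ℕ, p.Prime → 5 ≤ p → a p < p - 1 ∨ (b p < p * (p - 1) ∧
      ∀ (T : Type) [Group T] [Finite T], IsSec G T → QSimple T → ¬ p ∣ Nat.card T))
    (τ₀ : E →+* ℂ) :
    ∀ χ ∈ Irr G, R389.Mono χ ∨ χ ∈ GoodA (theta (ords ℓ c) : G → ℂ) := by
  classical
  have hrt := fun (q : ℕ) (hq : q ≠ 0) => finrank_cyc (F := ℚ) hq
    (Polynomial.cyclotomic.irreducible_rat (Nat.pos_of_ne_zero hq))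
  refine old_boundsQ (F := ℚ) (ℓ := fun _ => ℓ) hζ (fun _ => hL) (fun _ => hpos) hP hmon τ₀ ord
    hord hquat (sE := a) (sF := b) (sC := (ord ⊥ - ord ⊤).toNat) (k := 0) ha hb ?_ ?_ ?_
  · change ord ⊥ ≤ ord ⊤ + (((ord ⊥ - ord ⊤).toNat : ℕ) : ℤ)
    have := Int.self_le_toNat (ord ⊥ - ord ⊤)
    omega
  · intro X _ _ _ _ hsm E' p n hE
    have hp := hE.prime
    have hn := hE.pos
    have hpX : p ∣ Nat.card X := by
      have h6 : p ∣ Nat.card E' := by
        rw [hE.card]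
        exact Dvd.dvd.mul_right (dvd_pow_self p (by omega)) _
      exact h6.trans E'.card_subgroup_dvd_card
    have hs := hsm p hp hpX
    rw [hrt p hp.ne_zero, Nat.totient_prime hp] at hs
    set e := (Nat.card (Subgroup.center X)).factorization p with he
    rw [hrt _ (pow_ne_zero _ hp.ne_zero)]
    -- `p` divides the order of the centre
    have he0 : 0 < e := by
      have hcyc := hE.cyc
      obtain ⟨x, hx, y, hy, hxy⟩ : ∃ x ∈ E', ∃ y ∈ E', x * y * x⁻¹ * y⁻¹ ≠ 1 := by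
        by_contra hcon
        push Not at hcon
        have h6 : E' ≤ Subgroup.center X := hE.abel E' hE.normal (fun x hx y hy => by
          have := congrArg (fun t => t * y * x) (hcon x hx y hy)
          simpa [mul_assoc] using this)
        have h7 : E' = Subgroup.center X := le_antisymm h6 hE.le
        have h8 := hE.card
        rw [h7] at h8
        have h9 : 0 < Nat.card (Subgroup.center X) := Nat.card_pos
        have h10 : 1 < p ^ (2 * n) := Nat.one_lt_pow (by omega) hp.one_lt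
        nlinarith
      haveI : Fact p.Prime := ⟨hp⟩
      have h8 : orderOf (⟨x * y * x⁻¹ * y⁻¹, hE.comm x hx y hy⟩ : Subgroup.center X) = p := by
        refine orderOf_eq_prime (Subtype.ext (crit_comm hE hx hy)) ?_
        intro h
        exact hxy (congrArg Subtype.val h)
      have h9 : p ∣ Nat.card (Subgroup.center X) := by
        conv_lhs => rw [← h8]
        exact orderOf_dvd_natCard _
      exact hp.factorization_pos_of_dvd Nat.card_pos.ne' h9
    obtain ⟨f, hf⟩ : ∃ f, e = f + 1 := ⟨e - 1, by omega⟩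
    rw [hf, Nat.totient_prime_pow_succ hp]
    have hpf : 1 ≤ p ^ f := Nat.one_le_pow _ _ hp.pos
    have hpn : p ≤ p ^ n := Nat.le_self_pow (by omega) p
    have hbase : (p - 1) * p ≤ p ^ f * (p - 1) * p ^ n := by
      have h6 : p - 1 ≤ p ^ f * (p - 1) := Nat.le_mul_of_pos_left _ hpf
      exact Nat.mul_le_mul h6 hpn
    rcases Nat.lt_or_ge p 5 with h6 | h6
    · have h7 : p = 2 ∨ p = 3 := by
        interval_cases p
        · exact absurd hp (by norm_num)
        · exact absurd hp (by norm_num)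
        · exact Or.inl rfl
        · exact Or.inr rfl
        · exact absurd hp (by norm_num)
      rcases h7 with rfl | rfl
      · by_cases h8 : n = 1 ∧ f = 0
        · right
          refine ⟨rfl, h8.1, ?_, h2⟩
          rw [← he, hf, h8.2]
        · left
          refine lt_of_le_of_lt h2 ?_
          have h9 : 2 ≤ f + n := by omega
          have h10 : 2 ^ f * (2 - 1) * 2 ^ n = 2 ^ (f + n) := by
            rw [show (2 - 1 : ℕ) = 1 by norm_num, mul_one, pow_add]
          rw [h10]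
          have h11 : 2 ^ 2 ≤ 2 ^ (f + n) := Nat.pow_le_pow_right (by norm_num) h9
          omega
      · left
        have h8 : b 3 ≤ 5 := by
          rcases h3 with h8 | h8
          · omega
          · exact h8
        omega
    · left
      rcases h5 p hp h6 with h7 | h7
      · omega
      · have h8 := h7.1
        rw [mul_comm] at h8
        omega
  · intro T _ _ hT hsm hq χ _ _ d _
    exfalso
    obtain ⟨r, hr, hrT, hr2, hr3⟩ := qsimple_prime hq Nat.prime_two Nat.prime_three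
    have hs := hsm r hr hrT
    rw [hrt r hr.ne_zero, Nat.totient_prime hr] at hs
    have h5' : 5 ≤ r := by
      by_contra hcon
      push Not at hcon
      interval_cases r
      · exact absurd hr (by norm_num)
      · exact absurd hr (by norm_num)
      · exact hr2 rfl
      · exact hr3 rfl
      · exact absurd hr (by norm_num)
    rcases h5 r hr h5' with h6 | h6
    · omega
    · exact h6.2 T hT hq hrT

end Pool.Agent.N28.DL
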