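import Mathlib
import Pool.Agent.N28.DW.MainQ

/-!
# Few zeros: coefficient fields which are disjoint from the cyclotomic field
-/

set_option autoImplicit false
set_option linter.unusedSectionVars false

namespace Pool.Agent.N28.DL

open Pool.Agent.H302R2 Pool.Agent.H302R3 Pool.Agent.H541R3.ART Pool.Agent.W446.AS Pool.Agent.R389
  Pool.Agent.H302R5 Pool.Agent.H302R6 Filter Topology

variable {G : Type} [Group G] [Finite G]

lemma IsSec.order {X : Type} [Group X] (h : IsSec G X) (x : X) : orderOf x ∣ Monoid.exponent G := by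
  obtain ⟨H, q, hq⟩ := h
  obtain ⟨h, rfl⟩ := hq x
  refine (orderOf_map_dvd q h).trans ?_
  rw [← Subgroup.orderOf_coe]
  exact Monoid.order_dvd_exponent _

lemma IsSec.prime {X : Type} [Group X] [Finite X] (h : IsSec G X) {p : ℕ} (hp : p.Prime)
    (hpX : p ∣ Nat.card X) : p ∣ Monoid.exponent G := by
  have : Fact p.Prime := ⟨hp⟩
  obtain ⟨x, hx⟩ := exists_prime_orderOf_dvd_card' p hpX
  rw [← hx]
  exact h.order x

variable {E : Type} [Field E] {P : (E →+* ℂ) → (G → ℂ) → ℂ} {c : ℂ}

/-- **Deligne's conjecture for arbitrary groups and few zeros.** -/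
theorem main_WF [NumberField E] {F : Type} [Field F] [Algebra F E]
    {ℓ : (F →+* ℂ) → (G → ℂ) → ℂ → ℂ} {ζ : E}
    (hζ : IsPrimitiveRoot ζ (Monoid.exponent G))
    (hdis : ∀ q : ℕ, q ∣ Monoid.exponent G → Module.finrank F (CyclotomicField q F) = q.totient)
    (hL : ∀ τ, ∀ χ ∈ Irr G, MeromorphicAt (ℓ τ χ) c ∧ meromorphicOrderAt (ℓ τ χ) c ≠ ⊤)
    (hpos : ∀ τ, ∀ χ ∈ Irr G, 0 ≤ meromorphicOrderAt (ℓ τ χ) c)
    (hP : ∀ τ, ∀ χ ∈ Irr G, P τ χ ≠ 0)
    (hmon : ∀ (U : Subgroup G) (ψ : U →* Eˣ),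
      Deligne (fun τ => ℓ (τ.comp (algebraMap F E))) P c (ind U (fun u => ((ψ u : Eˣ) : E))))
    (τ₀ : E →+* ℂ) (ord : Subgroup G → ℤ) (hord : ∀ U : Subgroup G, ∃ m : (G → ℂ) → ℕ,
      IsDecomp (ind U (fun _ => (1 : ℂ))) m ∧
      meromorphicOrderAt (fun s => ∏ᶠ χ ∈ Irr G, ℓ (τ₀.comp (algebraMap F E)) χ s ^ m χ) c
        = ord U)
    (hquat : ∀ (H : Subgroup G) (f : H →* QuaternionGroup 2), Function.Surjective f →
      ∀ m : (G → ℂ) → ℕ, IsDecomp (ind H (fun h => quatChar (f h))) m →
        meromorphicOrderAt (fun s => ∏ᶠ χ ∈ Irr G,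
          ℓ (τ₀.comp (algebraMap F E)) χ s ^ m χ) c ≠ 1)
    {a b : ℕ → ℕ}
    (ha : ∀ p : ℕ, p.Prime → ord ⊥ ≤ ord (pgen p G) + a p)
    (hb : ∀ p : ℕ, p.Prime → ord ⊥ ≤ ord (derP p (⊤ : Subgroup G)) + b p)
    (h2 : b 2 ≤ 3) (h3 : a 3 ≤ 1 ∨ b 3 ≤ 5)
    (h5 : ∀ p : ℕ, p.Prime → 5 ≤ p → a p < p - 1 ∨ (b p < p * (p - 1) ∧
      ∀ (T : Type) [Group T] [Finite T], IsSec G T → QSimple T → ¬ p ∣ Nat.card T)) :
    ∀ χ ∈ Irr G, R389.Mono χ ∨
      χ ∈ GoodA (theta (ords (ℓ (τ₀.comp (algebraMap F E))) c) : G → ℂ) := by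
  classical
  refine old_boundsQ hζ hL hpos hP hmon τ₀ ord
    hord hquat (sE := a) (sF := b) (sC := (ord ⊥ - ord ⊤).toNat) (k := 0) ha hb ?_ ?_ ?_
  · change ord ⊥ ≤ ord ⊤ + (((ord ⊥ - ord ⊤).toNat : ℕ) : ℤ)
    have := Int.self_le_toNat (ord ⊥ - ord ⊤)
    omega
  · intro X _ _ hsec _ hsm E' p n hE
    have hp := hE.prime
    have hn := hE.pos
    have hpX : p ∣ Nat.card X := by
      have h6 : p ∣ Nat.card E' := by
        rw [hE.card]
        exact Dvd.dvd.mul_right (dvd_pow_self p (by omega)) _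
      exact h6.trans E'.card_subgroup_dvd_card
    have hs := hsm p hp hpX
    rw [hdis p (hsec.prime hp hpX), Nat.totient_prime hp] at hs
    set e := (Nat.card (Subgroup.center X)).factorization p with he
    have hpe : p ^ e ∣ Monoid.exponent G := by
      have hcyc := hE.cyc
      obtain ⟨g, hg⟩ := hcyc.exists_generator
      have hog : orderOf g = Nat.card (Subgroup.center X) :=
        orderOf_eq_card_of_forall_mem_zpowers hg
      rw [he]
      refine (Nat.ordProj_dvd _ _).trans ?_
      rw [← hog, ← Subgroup.orderOf_coe]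
      exact hsec.order _
    rw [hdis _ hpe]
    -- `p` divides the order of the centre
    have he0 : 0 < e := by
      have hcyc := hE.cyc
      obtain ⟨x, hx, y, hy, hxy⟩ : ∃ x ∈ E', ∃ y ∈ E', x * y * x⁻¹ * y⁻¹ ≠ 1 := by
        by_contra hcon
        push Not at hcon
        have h6 : E' ≤ Subgroup.center X := hE.abel E' hE.normal (fun x hx y hy => by
          have := congrArg (fun t => t * y * x) (hcon x hx y hy)
          simpa [mul_assoc] using this)
        have h7 : E' = Subgroup.center X := le_antisymm h6 hE.le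
        have h8 := hE.card
        rw [h7] at h8
        have h9 : 0 < Nat.card (Subgroup.center X) := Nat.card_pos
        have h10 : 1 < p ^ (2 * n) := Nat.one_lt_pow (by omega) hp.one_lt
        nlinarith
      haveI : Fact p.Prime := ⟨hp⟩
      have h8 : orderOf (⟨x * y * x⁻¹ * y⁻¹, hE.comm x hx y hy⟩ : Subgroup.center X) = p := by
        refine orderOf_eq_prime (Subtype.ext (crit_comm hE hx hy)) ?_
        intro h
        exact hxy (congrArg Subtype.val h)
      have h9 : p ∣ Nat.card (Subgroup.center X) := by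
        conv_lhs => rw [← h8]
        exact orderOf_dvd_natCard _
      exact hp.factorization_pos_of_dvd Nat.card_pos.ne' h9
    obtain ⟨f, hf⟩ : ∃ f, e = f + 1 := ⟨e - 1, by omega⟩
    rw [hf, Nat.totient_prime_pow_succ hp]
    have hpf : 1 ≤ p ^ f := Nat.one_le_pow _ _ hp.pos
    have hpn : p ≤ p ^ n := Nat.le_self_pow (by omega) p
    have hbase : (p - 1) * p ≤ p ^ f * (p - 1) * p ^ n := by
      have h6 : p - 1 ≤ p ^ f * (p - 1) := Nat.le_mul_of_pos_left _ hpf
      exact Nat.mul_le_mul h6 hpn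
    rcases Nat.lt_or_ge p 5 with h6 | h6
    · have h7 : p = 2 ∨ p = 3 := by
        interval_cases p
        · exact absurd hp (by norm_num)
        · exact absurd hp (by norm_num)
        · exact Or.inl rfl
        · exact Or.inr rfl
        · exact absurd hp (by norm_num)
      rcases h7 with rfl | rfl
      · by_cases h8 : n = 1 ∧ f = 0
        · right
          refine ⟨rfl, h8.1, ?_, h2⟩
          rw [← he, hf, h8.2]
        · left
          refine lt_of_le_of_lt h2 ?_
          have h9 : 2 ≤ f + n := by omega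
          have h10 : 2 ^ f * (2 - 1) * 2 ^ n = 2 ^ (f + n) := by
            rw [show (2 - 1 : ℕ) = 1 by norm_num, mul_one, pow_add]
          rw [h10]
          have h11 : 2 ^ 2 ≤ 2 ^ (f + n) := Nat.pow_le_pow_right (by norm_num) h9
          omega
      · left
        have h8 : b 3 ≤ 5 := by
          rcases h3 with h8 | h8
          · omega
          · exact h8
        omega
    · left
      rcases h5 p hp h6 with h7 | h7
      · omega
      · have h8 := h7.1
        rw [mul_comm] at h8
        omega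
  · intro T _ _ hT hsm hq χ _ _ d _
    exfalso
    obtain ⟨r, hr, hrT, hr2, hr3⟩ := qsimple_prime hq Nat.prime_two Nat.prime_three
    have hs := hsm r hr hrT
    rw [hdis r (hT.prime hr hrT), Nat.totient_prime hr] at hs
    have h5' : 5 ≤ r := by
      by_contra hcon
      push Not at hcon
      interval_cases r
      · exact absurd hr (by norm_num)
      · exact absurd hr (by norm_num)
      · exact hr2 rfl
      · exact hr3 rfl
      · exact absurd hr (by norm_num)
    rcases h5 r hr h5' with h6 | h6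
    · omega
    · exact h6.2 T hT hq hrT

end Pool.Agent.N28.DL
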