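import Mathlib
import Pool.Agent.N28.DW.MainF
import Pool.Agent.N28.DJ.NewConc

/-!
# Ratios of successive critical values
-/

set_option autoImplicit false
set_option linter.unusedSectionVars false

namespace Pool.Agent.N28.DL

open Pool.Agent.H302R2 Pool.Agent.H302R3 Pool.Agent.H541R3.ART Pool.Agent.W446.AS Pool.Agent.R389
  Pool.Agent.H302R5 Pool.Agent.H302R6 Filter Topology

/-- the quotient of successive values -/
noncomputable def rat {G : Type} (l : (G → ℂ) → ℂ → ℂ) (χ : G → ℂ) (s : ℂ) : ℂ :=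
  l χ s / l χ (s + 1)

/-- the explicit period -/
noncomputable def kper {G : Type} [Group G] (κ : ℂ) (n : ℕ) (χ : G → ℂ) : ℂ :=
  κ ^ (n * ⌊(χ 1).re⌋₊)

variable {G : Type} [Group G] [Finite G]

lemma kper_prod {κ : ℂ} {n : ℕ} {f : G → ℂ} {m : (G → ℂ) → ℕ} (hm : IsDecomp f m) {d : ℕ}
    (hd : f 1 = d) : ∏ᶠ χ ∈ Irr G, kper κ n χ ^ m χ = κ ^ (n * d) := by
  classical
  rw [finprod_irr (fun χ => kper κ n χ ^ m χ)]
  choose! dd _ hdd using fun χ (hχ : χ ∈ Irr G) => irr_deg_pos hχ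
  have h1 : ∀ χ ∈ irrF G, kper κ n χ ^ m χ = κ ^ (n * (m χ * dd χ)) := by
    intro χ hχ
    rw [kper, hdd χ (mem_irrF.mp hχ), Complex.natCast_re, Nat.floor_natCast, ← pow_mul]
    congr 1
    ring
  rw [Finset.prod_congr rfl h1, Finset.prod_pow_eq_pow_sum, ← Finset.mul_sum]
  have h2 := hm 1
  rw [hd, finsum_irr (fun χ => (m χ : ℂ) * χ 1)] at h2
  have h3 : ((d : ℕ) : ℂ) = ((∑ χ ∈ irrF G, m χ * dd χ : ℕ) : ℂ) := by
    rw [h2, Nat.cast_sum]
    exact Finset.sum_congr rfl fun χ hχ => by rw [hdd χ (mem_irrF.mp hχ)]; push_cast; rfl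
  have h4 : d = ∑ χ ∈ irrF G, m χ * dd χ := by exact_mod_cast h3
  rw [← h4]

lemma rat_order {l : (G → ℂ) → ℂ → ℂ} {c : ℂ} {χ : G → ℂ}
    (h : MeromorphicAt (l χ) c ∧ meromorphicOrderAt (l χ) c ≠ ⊤)
    (h1 : AnalyticAt ℂ (l χ) (c + 1) ∧ l χ (c + 1) ≠ 0) :
    MeromorphicAt (rat l χ) c ∧ meromorphicOrderAt (rat l χ) c = meromorphicOrderAt (l χ) c := by
  have h2 : AnalyticAt ℂ (fun s => l χ (s + 1)) c := by
    have h3 : AnalyticAt ℂ (fun s : ℂ => s + 1) c := by fun_prop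
    exact AnalyticAt.comp' h1.1 h3
  have h3 : meromorphicOrderAt (fun s => l χ (s + 1)) c = 0 := by
    rw [h2.meromorphicOrderAt_eq, h2.analyticOrderAt_eq_zero.mpr h1.2]
    rfl
  have h4 : MeromorphicAt (fun s => l χ (s + 1)) c := h2.meromorphicAt
  have e : rat l χ = l χ * (fun s => l χ (s + 1))⁻¹ := by
    funext s
    rw [rat, Pi.mul_apply, Pi.inv_apply, div_eq_mul_inv]
  constructor
  · rw [e]
    exact h.1.mul h4.inv
  · rw [e, meromorphicOrderAt_mul h.1 h4.inv, meromorphicOrderAt_inv, h3]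
    simp

variable {E : Type} [Field E] {F : Type} [Field F] [Algebra F E]

/-- the assertion on the quotients for the character `f` of degree `d` -/
def QHolds (L : (F →+* ℂ) → (G → ℂ) → ℂ → ℂ) (κ : ℂ) (n : ℕ) (c : ℂ) (f : G → E) (d : ℕ) : Prop :=
  ∃ e : E, ∀ (τ : E →+* ℂ) (m : (G → ℂ) → ℕ), IsDecomp (fun g => τ (f g)) m →
    Tendsto (fun s => (∏ᶠ χ ∈ Irr G, L (τ.comp (algebraMap F E)) χ s ^ m χ) /
      ∏ᶠ χ ∈ Irr G, L (τ.comp (algebraMap F E)) χ (s + 1) ^ m χ) (𝓝[≠] c)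
      (𝓝 (τ e * κ ^ (n * d)))

lemma qholds_iff {L : (F →+* ℂ) → (G → ℂ) → ℂ → ℂ} {κ : ℂ} {n : ℕ} {c : ℂ} {f : G → E} {d : ℕ}
    (hd : f 1 = d) : QHolds L κ n c f d ↔
      Deligne (fun τ => rat (L (τ.comp (algebraMap F E)))) (fun _ => kper κ n) c f := by
  classical
  have h1 : ∀ (τ : E →+* ℂ) (m : (G → ℂ) → ℕ),
      (fun s => (∏ᶠ χ ∈ Irr G, L (τ.comp (algebraMap F E)) χ s ^ m χ) /
      ∏ᶠ χ ∈ Irr G, L (τ.comp (algebraMap F E)) χ (s + 1) ^ m χ) =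
      fun s => ∏ᶠ χ ∈ Irr G, rat (L (τ.comp (algebraMap F E))) χ s ^ m χ := by
    intro τ m
    funext s
    rw [finprod_irr (fun χ => L (τ.comp (algebraMap F E)) χ s ^ m χ),
      finprod_irr (fun χ => L (τ.comp (algebraMap F E)) χ (s + 1) ^ m χ),
      finprod_irr (fun χ => rat (L (τ.comp (algebraMap F E))) χ s ^ m χ), ← Finset.prod_div_distrib]
    exact Finset.prod_congr rfl fun χ _ => by rw [rat, div_pow]
  have h2 : ∀ (τ : E →+* ℂ) (m : (G → ℂ) → ℕ), IsDecomp (fun g => τ (f g)) m →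
      ∏ᶠ χ ∈ Irr G, kper κ n χ ^ m χ = κ ^ (n * d) := by
    intro τ m hm
    exact kper_prod hm (by rw [hd, map_natCast])
  constructor
  · rintro ⟨e, he⟩
    refine ⟨e, fun τ m hm => ?_⟩
    rw [h2 τ m hm, ← h1]
    exact he τ m hm
  · rintro ⟨e, he⟩
    refine ⟨e, fun τ m hm => ?_⟩
    rw [h1, ← h2 τ m hm]
    exact he τ m hm

lemma rat_ords {l : (G → ℂ) → ℂ → ℂ} {c : ℂ}
    (h : ∀ χ ∈ Irr G, MeromorphicAt (l χ) c ∧ meromorphicOrderAt (l χ) c ≠ ⊤)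
    (h1 : ∀ χ ∈ Irr G, AnalyticAt ℂ (l χ) (c + 1) ∧ l χ (c + 1) ≠ 0) (m : (G → ℂ) → ℕ) :
    meromorphicOrderAt (fun s => ∏ᶠ χ ∈ Irr G, rat l χ s ^ m χ) c
      = meromorphicOrderAt (fun s => ∏ᶠ χ ∈ Irr G, l χ s ^ m χ) c := by
  classical
  have h2 : ∀ χ ∈ Irr G, MeromorphicAt (rat l χ) c ∧ meromorphicOrderAt (rat l χ) c ≠ ⊤ := by
    intro χ hχ
    obtain ⟨h3, h4⟩ := rat_order (h χ hχ) (h1 χ hχ)
    exact ⟨h3, by rw [h4]; exact (h χ hχ).2⟩
  have e1 : ∀ k : (G → ℂ) → ℂ → ℂ, (fun s => ∏ᶠ χ ∈ Irr G, k χ s ^ m χ)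
      = fun z => ∏ χ ∈ irrF G, k χ z ^ ((m χ : ℕ) : ℤ) := by
    intro k
    funext s
    rw [finprod_irr (fun χ => k χ s ^ m χ)]
    exact Finset.prod_congr rfl fun χ _ => by rw [zpow_natCast]
  rw [e1, e1, (order_prod h2 (irrF G) subset_rfl (fun χ => (m χ : ℤ))).2,
    (order_prod h (irrF G) subset_rfl (fun χ => (m χ : ℤ))).2]
  congr 1
  refine Finset.sum_congr rfl fun χ hχ => ?_
  rw [ords, ords, (rat_order (h χ (mem_irrF.mp hχ)) (h1 χ (mem_irrF.mp hχ))).2]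

/-- **Ratios of successive critical values.** -/
theorem main_ratio [NumberField E] {ζ : E} (hζ : IsPrimitiveRoot ζ (Monoid.exponent G))
    {L : (F →+* ℂ) → (G → ℂ) → ℂ → ℂ} {κ : ℂ} (hκ : κ ≠ 0) {n : ℕ} {c : ℂ}
    (hL : ∀ τ, ∀ χ ∈ Irr G, MeromorphicAt (L τ χ) c ∧ meromorphicOrderAt (L τ χ) c ≠ ⊤)
    (hpos : ∀ τ, ∀ χ ∈ Irr G, 0 ≤ meromorphicOrderAt (L τ χ) c)
    (hnext : ∀ τ, ∀ χ ∈ Irr G, AnalyticAt ℂ (L τ χ) (c + 1) ∧ L τ χ (c + 1) ≠ 0)
    (hmon : ∀ (U : Subgroup G) (ψ : U →* Eˣ),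
      QHolds L κ n c (ind U (fun u => ((ψ u : Eˣ) : E))) U.index)
    (τ₀ : E →+* ℂ) (ord : Subgroup G → ℤ) (hord : ∀ U : Subgroup G, ∃ m : (G → ℂ) → ℕ,
      IsDecomp (ind U (fun _ => (1 : ℂ))) m ∧
      meromorphicOrderAt (fun s => ∏ᶠ χ ∈ Irr G, L (τ₀.comp (algebraMap F E)) χ s ^ m χ) c
        = ord U)
    (hz : (∀ A H : Subgroup G, A ≤ H → ∀ [(A.subgroupOf H).Normal], Prim (H ⧸ A.subgroupOf H) →
        ∃ B : Subgroup G, A < B ∧ B ≤ H ∧ (B.subgroupOf H).Normal ∧ ord B = ord A) ∨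
      ((∀ q : ℕ, q ∣ Monoid.exponent G → Module.finrank F (CyclotomicField q F) = q.totient) ∧
        (∀ (H : Subgroup G) (f : H →* QuaternionGroup 2), Function.Surjective f →
          ∀ m : (G → ℂ) → ℕ, IsDecomp (ind H (fun h => quatChar (f h))) m →
            meromorphicOrderAt (fun s => ∏ᶠ χ ∈ Irr G,
              L (τ₀.comp (algebraMap F E)) χ s ^ m χ) c ≠ 1) ∧
        ord ⊥ ≤ ord (derP 2 (⊤ : Subgroup G)) + 3 ∧ ord ⊥ ≤ ord (derP 3 (⊤ : Subgroup G)) + 5 ∧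
        ∀ p : ℕ, p.Prime → 5 ≤ p → ord ⊥ < ord (pgen p G) + (p - 1) ∨
          (ord ⊥ < ord (derP p (⊤ : Subgroup G)) + p * (p - 1) ∧
          ∀ (T : Type) [Group T] [Finite T], IsSec G T → QSimple T → ¬ p ∣ Nat.card T)))
    {V : Type} [AddCommGroup V] [Module E V] [FiniteDimensional E V] (ρ : Representation E G V) :
    QHolds L κ n c ρ.character (Module.finrank E V) := by
  classical
  have hR : ∀ τ : F →+* ℂ, ∀ χ ∈ Irr G, MeromorphicAt (rat (L τ) χ) c ∧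
      meromorphicOrderAt (rat (L τ) χ) c ≠ ⊤ := by
    intro τ χ hχ
    obtain ⟨h3, h4⟩ := rat_order (hL τ χ hχ) (hnext τ χ hχ)
    exact ⟨h3, by rw [h4]; exact (hL τ χ hχ).2⟩
  have hRpos : ∀ τ : F →+* ℂ, ∀ χ ∈ Irr G, 0 ≤ meromorphicOrderAt (rat (L τ) χ) c := by
    intro τ χ hχ
    rw [(rat_order (hL τ χ hχ) (hnext τ χ hχ)).2]
    exact hpos τ χ hχ
  have hP : ∀ τ : E →+* ℂ, ∀ χ ∈ Irr G, (fun (_ : E →+* ℂ) => kper κ n) τ χ ≠ 0 :=
    fun _ χ _ => pow_ne_zero _ hκ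
  have hmon' : ∀ (U : Subgroup G) (ψ : U →* Eˣ),
      Deligne (fun τ : E →+* ℂ => rat (L (τ.comp (algebraMap F E)))) (fun _ => kper κ n) c
        (ind U (fun u => ((ψ u : Eˣ) : E))) := by
    intro U ψ
    refine (qholds_iff ?_).mp (hmon U ψ)
    rw [ind]
    have h1 : ∀ x : G, R389.ext U (fun u => ((ψ u : Eˣ) : E)) (x⁻¹ * 1 * x) = 1 := by
      intro x
      rw [mul_one, inv_mul_cancel, R389.ext, dif_pos U.one_mem]
      have : (⟨1, U.one_mem⟩ : U) = 1 := rfl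
      rw [this, map_one, Units.val_one]
    have hfin : Fintype G := Fintype.ofFinite G
    rw [finsum_eq_sum_of_fintype, Finset.sum_congr rfl (fun x _ => h1 x), Finset.sum_const,
      Finset.card_univ, nsmul_eq_mul, mul_one, ← Nat.card_eq_fintype_card, ← U.card_mul_index]
    have h2 : (Nat.card U : E) ≠ 0 := by exact_mod_cast Nat.card_pos.ne'
    push_cast
    rw [← mul_assoc, inv_mul_cancel₀ h2, one_mul]
  have hord' : ∀ U : Subgroup G, ∃ m : (G → ℂ) → ℕ, IsDecomp (ind U (fun _ => (1 : ℂ))) m ∧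
      meromorphicOrderAt (fun s => ∏ᶠ χ ∈ Irr G,
        rat (L (τ₀.comp (algebraMap F E))) χ s ^ m χ) c = ord U := by
    intro U
    obtain ⟨m, hm, hmk⟩ := hord U
    refine ⟨m, hm, ?_⟩
    rw [rat_ords (hL _) (hnext _)]
    exact hmk
  refine (qholds_iff (by rw [Representation.char_one])).mpr ?_
  rcases hz with h | ⟨hcyc, hquat, h2, h3, h5⟩
  · exact main_newsec hζ (fun τ => hR _) hP hmon' τ₀ ord hord' (conc h) ρ
  · have hall := main_WF (ℓ := fun τ => rat (L τ)) hζ hcyc hR hRpos hP hmon' τ₀ ord hord'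
      (fun H f hf m hm h1 => hquat H f hf m hm (by rw [← rat_ords (hL _) (hnext _)]; exact h1))
      (a := fun p => (ord ⊥ - ord (pgen p G)).toNat)
      (b := fun p => (ord ⊥ - ord (derP p (⊤ : Subgroup G))).toNat)
      (fun p _ => by
        have := Int.self_le_toNat (ord ⊥ - ord (pgen p G))
        omega)
      (fun p _ => by
        have := Int.self_le_toNat (ord ⊥ - ord (derP p (⊤ : Subgroup G)))
        omega)
      (by omega) (Or.inr (by omega))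
      (fun p hp h => by
        rcases h5 p hp h with h6 | ⟨h6, h7⟩
        · left
          omega
        · right
          refine ⟨?_, fun T _ _ hs hT => h7 T hs hT⟩
          have h8 : ((p - 1 : ℕ) : ℤ) = (p : ℤ) - 1 := by omega
          rw [← h8] at h6
          have h9 : 0 < p * (p - 1) := Nat.mul_pos (by omega) (by omega)
          omega)
    exact bridge hζ (fun τ => hR _) hP hmon' τ₀ (fun χ hχ => mem_sup_of (hall χ hχ)) ρ

end Pool.Agent.N28.DL
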